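import Pool.Agent.Idx60.Rep

/-!
Codes for the blocks of the first copy.
-/

namespace Pool.Agent.Idx60

open Classical

variable {T V F : Type}

/-! ### the words -/

theorem uw_mem {a b : T} {k N : ℕ} : ∀ c ∈ uw a b k N, c = a ∨ c = b := by
  intro c hc
  simp only [uw, mw, List.mem_append, List.mem_flatMap, List.mem_cons, List.mem_replicate] at hc
  tauto

theorem uw_getLast {a b : T} {k N : ℕ} : (uw a b k N).getLast? = some b := by
  simp [uw]

theorem uw_split {a b : T} {k N j : ℕ} (hj : j < k) : ∃ P Q : List T,
    uw a b k N = List.replicate N a ++ P ++ mw a b N ++ List.replicate j a ++ mw a b N ++ Q := by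
  have h : List.range (k + 1) = List.range j ++ (j :: (j + 1) ::
      (List.range (k - 1 - j)).map (fun x => j + 2 + x)) := by
    have e : k + 1 = j + (2 + (k - 1 - j)) := by omega
    rw [e, List.range_add]
    congr 1
    rw [List.range_add, List.map_append]
    have : (List.range 2) = [0, 1] := by decide
    rw [this]
    simp [List.map_map, Function.comp_def, Nat.add_assoc]
  unfold uw
  rw [h]
  refine ⟨(List.range j).flatMap (fun j => mw a b N ++ List.replicate j a),
    List.replicate (j + 1) a ++ ((List.range (k - 1 - j)).map (fun x => j + 2 + x)).flatMap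
      (fun j => mw a b N ++ List.replicate j a) ++ [b], ?_⟩
  simp [List.append_assoc]

theorem cutM {M y z x t : List T} (h : y ++ z = x ++ M ++ t) : M <:+: y ∨ ∃ x', z = x' ++ t := by
  rcases List.append_eq_append_iff.1 h with ⟨m, e, e'⟩ | ⟨m, e, e'⟩
  · exact Or.inr ⟨m, e'⟩
  · exact Or.inl ⟨x, m, by rw [e]⟩

theorem four_M {M x0 x1 x2 x3 x4 y1 y2 y3 y4 : List T}
    (h : y1 ++ y2 ++ y3 ++ y4 = x0 ++ M ++ (x1 ++ M ++ (x2 ++ M ++ (x3 ++ M ++ x4)))) :
    M <:+: y1 ∨ M <:+: y2 ∨ M <:+: y3 ∨ M <:+: y4 := by
  have h0 : y1 ++ (y2 ++ (y3 ++ y4)) =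
      x0 ++ M ++ (x1 ++ M ++ (x2 ++ M ++ (x3 ++ M ++ x4))) := by
    rw [← h]; simp [List.append_assoc]
  rcases cutM h0 with h1 | ⟨x', h1⟩
  · exact Or.inl h1
  have h2 : y2 ++ (y3 ++ y4) = (x' ++ x1) ++ M ++ (x2 ++ M ++ (x3 ++ M ++ x4)) := by
    rw [h1]; simp [List.append_assoc]
  rcases cutM h2 with h3 | ⟨x'', h3⟩
  · exact Or.inr (Or.inl h3)
  have h4 : y3 ++ y4 = (x'' ++ x2) ++ M ++ (x3 ++ M ++ x4) := by
    rw [h3]; simp [List.append_assoc]
  rcases cutM h4 with h5 | ⟨x''', h5⟩
  · exact Or.inr (Or.inr (Or.inl h5))
  · right; right; right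
    exact ⟨x''' ++ x3, x4, by rw [h5]; simp [List.append_assoc]⟩

theorem uu_hQ {a b : T} {k N : ℕ} (hk : 0 < k) : ∀ x1 x2 x3 x4 : List T,
    uw a b k N ++ uw a b k N = x1 ++ x2 ++ x3 ++ x4 →
      mw a b N <:+: x1 ∨ mw a b N <:+: x2 ∨ mw a b N <:+: x3 ∨ mw a b N <:+: x4 := by
  intro y1 y2 y3 y4 h
  obtain ⟨P, Q, e⟩ := uw_split (a := a) (b := b) (N := N) hk
  apply four_M (x0 := List.replicate N a ++ P) (x1 := []) (x2 := Q ++ (List.replicate N a ++ P))
    (x3 := []) (x4 := Q)
  rw [← h, e]
  simp [List.append_assoc]

/-! ### locating letters in annotated forms -/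

theorem locate : ∀ (ann : List (Piece T V)) (P Q : List T) (c : T), Y ann = P ++ c :: Q →
    ∃ A1 e A2 v1 v2, ann = A1 ++ e :: A2 ∧ yl e = v1 ++ c :: v2 ∧ P = Y A1 ++ v1 ∧
      Q = v2 ++ Y A2
  | [], P, Q, c, h => by simp at h
  | p :: l, P, Q, c, h => by
    rw [Y_cons] at h
    rcases List.append_eq_append_iff.1 h with ⟨m, e, e'⟩ | ⟨m, e, e'⟩
    · obtain ⟨A1, x, A2, v1, v2, h1, h2, h3, h4⟩ := locate l m Q c e'
      exact ⟨p :: A1, x, A2, v1, v2, by rw [h1]; rfl, h2, by rw [e, h3, Y_cons, List.append_assoc],
        h4⟩
    · rcases m with _ | ⟨c', m⟩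
      · simp only [List.nil_append] at e'
        obtain ⟨A1, x, A2, v1, v2, h1, h2, h3, h4⟩ := locate l [] Q c (by simpa using e'.symm)
        refine ⟨p :: A1, x, A2, v1, v2, by rw [h1]; rfl, h2, ?_, h4⟩
        rw [Y_cons, List.append_assoc, ← h3]
        simpa using e.symm
      · simp only [List.cons_append, List.cons.injEq] at e'
        refine ⟨[], p, l, P, m, rfl, ?_, by simp, e'.2⟩
        rw [e, e'.1]

/-! ### codes -/

/-- the type of codes -/
abbrev Code (V : Type) (C : ℕ) : Type :=
  V ⊕ (Option V × {l : List (Option V) // l.length ≤ C} × Option V)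

instance [Finite V] (C : ℕ) : Finite {l : List (Option V) // l.length ≤ C} :=
  (List.finite_length_le (Option V) C).to_subtype

/-- the labels of the nonempty pieces -/
def labs (seg : List (Piece T V)) : List (Option V) :=
  (seg.filter (fun p => !(yl p).isEmpty)).map (fun p => opt (sym p))

theorem length_labs (seg : List (Piece T V)) : (labs seg).length = nn seg := by
  simp [labs, nn, List.countP_eq_length_filter]

/-- `c` is a code of the block of length `j` in the first copy -/
def IsCode (a b : T) (u l0 : List T) (ann : List (Piece T V)) {C : ℕ} (j : ℕ) : Code V C → Prop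
  | Sum.inl Z => ∃ A1 v A2 i i', ann = A1 ++ Sum.inr (Z, v) :: A2 ∧
      v = List.replicate i a ++ b :: (List.replicate j a ++ b :: List.replicate i' a) ∧
      (l0 ++ Y A1 ++ v).length ≤ u.length
  | Sum.inr (o, L, o') => ∃ A1 e seg e' A2 i1 i i' i2, ann = A1 ++ e :: (seg ++ e' :: A2) ∧
      opt (sym e) = o ∧ opt (sym e') = o' ∧ labs seg = L.1 ∧
      yl e = List.replicate i1 a ++ b :: List.replicate i a ∧
      yl e' = List.replicate i' a ++ b :: List.replicate i2 a ∧
      (∀ c ∈ Y seg, c = a) ∧ j = i + (Y seg).length + i' ∧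
      (l0 ++ Y A1 ++ yl e ++ Y seg ++ yl e').length ≤ u.length

theorem sum_len_eq {l l' : List (Piece T V)}
    (h : l.map (fun p => opt (sym p)) = l'.map (fun p => opt (sym p)))
    (h2 : ∀ p ∈ l, ∀ p' ∈ l', opt (sym p) = opt (sym p') → (yl p).length = (yl p').length) :
    (l.map (fun p => (yl p).length)).sum = (l'.map (fun p => (yl p).length)).sum := by
  induction l generalizing l' with
  | nil =>
    have : l' = [] := by simpa using h.symm
    rw [this]
  | cons p l ih =>
    rcases l' with _ | ⟨p', l'⟩
    · simp at h
    · simp only [List.map_cons, List.cons.injEq] at h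
      simp only [List.map_cons, List.sum_cons]
      rw [h2 p (by simp) p' (by simp) h.1, ih h.2 (fun q hq q' hq' =>
        h2 q (List.mem_cons_of_mem _ hq) q' (List.mem_cons_of_mem _ hq'))]

theorem length_Y_filter (seg : List (Piece T V)) :
    (Y seg).length =
      ((seg.filter (fun p => !(yl p).isEmpty)).map (fun p => (yl p).length)).sum := by
  induction seg with
  | nil => rfl
  | cons p l ih =>
    rw [Y_cons, List.length_append, ih]
    by_cases h : yl p = []
    · rw [List.filter_cons_of_neg (by simp [h])]
      simp [h]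
    · rw [List.filter_cons_of_pos (by simpa using h)]
      simp

/-- codes determine the length of the block -/
theorem code_inj {a b : T} (hne : a ≠ b) {u l0 : List T} {ann : List (Piece T V)} {C : ℕ}
    (hrig : ∀ (Z : V) (v v' : List T) (A1 A2 A1' A2' : List (Piece T V)),
      ann = A1 ++ Sum.inr (Z, v) :: A2 → ann = A1' ++ Sum.inr (Z, v') :: A2' →
      (l0 ++ Y A1 ++ v).length ≤ u.length → (l0 ++ Y A1' ++ v').length ≤ u.length →
      v.count b = v'.count b → v = v')
    {j j' : ℕ} {c : Code V C} (h : IsCode a b u l0 ann j c) (h' : IsCode a b u l0 ann j' c) :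
    j = j' := by
  have cnt : ∀ i i' : ℕ, (List.replicate i a ++ b :: List.replicate i' a).count b = 1 := by
    intro i i'
    rw [List.count_append, List.count_cons_self, List.count_eq_zero.2, List.count_eq_zero.2]
    · intro h; exact hne (List.eq_of_mem_replicate h).symm
    · intro h; exact hne (List.eq_of_mem_replicate h).symm
  rcases c with Z | ⟨o, L, o'⟩
  · obtain ⟨A1, v, A2, i, i', e1, e2, e3⟩ := h
    obtain ⟨A1', v', A2', m, m', e1', e2', e3'⟩ := h'
    have cnt2 : ∀ x y z : ℕ, (List.replicate x a ++ b :: (List.replicate y a ++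
        b :: List.replicate z a)).count b = 2 := by
      intro x y z
      rw [List.count_append, List.count_cons_self, cnt, List.count_eq_zero.2]
      intro h; exact hne (List.eq_of_mem_replicate h).symm
    have := hrig Z v v' A1 A2 A1' A2' e1 e1' e3 e3' (by rw [e2, e2', cnt2, cnt2])
    rw [e2, e2'] at this
    exact (run_inj hne (run_inj hne this).2).1
  · obtain ⟨A1, e, seg, e', A2, i1, i, i', i2, h1, h2, h3, h4, h5, h6, h7, h8, h9⟩ := h
    obtain ⟨B1, g, seg', g', B2, m1, m, m', m2, k1, k2, k3, k4, k5, k6, k7, k8, k9⟩ := h'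
    -- two pieces with the same label and one `b`
    have single : ∀ (p q : Piece T V) (P1 P2 Q1 Q2 : List (Piece T V)) (x y x' y' : ℕ),
        opt (sym p) = opt (sym q) → ann = P1 ++ p :: P2 → ann = Q1 ++ q :: Q2 →
        yl p = List.replicate x a ++ b :: List.replicate y a →
        yl q = List.replicate x' a ++ b :: List.replicate y' a →
        (l0 ++ Y P1 ++ yl p).length ≤ u.length → (l0 ++ Y Q1 ++ yl q).length ≤ u.length →
        x = x' ∧ y = y' := by
      intro p q P1 P2 Q1 Q2 x y x' y' hl ha ha' hp hq hu hu'
      have hpq : yl p = yl q := by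
        rcases p with t | ⟨Z, v⟩
        · rcases q with t' | ⟨Z', v'⟩
          · have l1 := congrArg List.length hp
            have l2 := congrArg List.length hq
            simp only [yl_inl, List.length_append, List.length_cons, List.length_nil,
              List.length_replicate] at l1 l2
            have : x = 0 := by omega
            have : y = 0 := by omega
            have : x' = 0 := by omega
            have : y' = 0 := by omega
            subst_vars
            rw [hp, hq]
          · simp at hl
        · rcases q with t' | ⟨Z', v'⟩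
          · simp at hl
          · simp only [sym_inr, opt_inr, Option.some.injEq] at hl
            subst hl
            simp only [yl_inr] at *
            exact hrig Z v v' P1 P2 Q1 Q2 ha ha' hu hu' (by rw [hp, hq, cnt, cnt])
      rw [hp, hq] at hpq
      obtain ⟨r1, r2⟩ := run_inj hne hpq
      exact ⟨r1, by simpa using congrArg List.length r2⟩
    simp only [List.length_append] at h9 k9
    have q1 := single e g A1 _ B1 _ i1 i m1 m (by rw [h2, k2]) h1 k1 h5 k5
      (by simp only [List.length_append]; omega) (by simp only [List.length_append]; omega)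
    have q2 := single e' g' (A1 ++ e :: seg) A2 (B1 ++ g :: seg') B2 i' i2 m' m2 (by rw [h3, k3])
      (by rw [h1]; simp) (by rw [k1]; simp) h6 k6
      (by simp only [List.length_append, Y_append, Y_cons]; omega)
      (by simp only [List.length_append, Y_append, Y_cons]; omega)
    have q3 : (Y seg).length = (Y seg').length := by
      rw [length_Y_filter, length_Y_filter]
      apply sum_len_eq
      · exact h4.trans k4.symm
      · intro p hp q hq hl
        have hp' := (List.mem_filter.1 hp).1
        have hq' := (List.mem_filter.1 hq).1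
        rcases p with t | ⟨Z, v⟩
        · rcases q with t' | ⟨Z', v'⟩
          · rfl
          · simp at hl
        · rcases q with t' | ⟨Z', v'⟩
          · simp at hl
          · simp only [sym_inr, opt_inr, Option.some.injEq] at hl
            subst hl
            obtain ⟨s1, s2, es⟩ := List.append_of_mem hp'
            obtain ⟨t1, t2, et⟩ := List.append_of_mem hq'
            have hv : ∀ c ∈ v, c = a := fun c hc => h7 c (List.mem_flatMap.2 ⟨_, hp', hc⟩)
            have hv' : ∀ c ∈ v', c = a := fun c hc => k7 c (List.mem_flatMap.2 ⟨_, hq', hc⟩)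
            have := hrig Z v v' (A1 ++ e :: s1) (s2 ++ e' :: A2) (B1 ++ g :: t1) (t2 ++ g' :: B2)
              (by rw [h1, es]; simp) (by rw [k1, et]; simp)
              (by
                rw [es] at h9
                simp only [List.length_append, Y_append, Y_cons, yl_inr] at h9 ⊢
                omega)
              (by
                rw [et] at k9
                simp only [List.length_append, Y_append, Y_cons, yl_inr] at k9 ⊢
                omega)
              (by
                rw [List.count_eq_zero.2, List.count_eq_zero.2]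
                · intro h; exact hne (hv' b h).symm
                · intro h; exact hne (hv b h).symm)
            simp only [yl_inr, this]
    rw [h8, k8, q1.2, q2.1, q3]

end Pool.Agent.Idx60
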