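import Pool.Agent.Idx60.Code

/-!
MODULE CORE (MP_f95305_al, helper60): a language all of whose words are least among their rotations
and which contains the words `u u` is not generated by a normal form grammar.
-/

namespace Pool.Agent.Idx60

open Classical

theorem lead_le {T : Type} {a b : T} (hne : a ≠ b) : ∀ {n N : ℕ} {y x : List T},
    List.replicate n a ++ y = List.replicate N a ++ b :: x →
      n ≤ N ∧ y = List.replicate (N - n) a ++ b :: x
  | 0, N, y, x, h => ⟨Nat.zero_le _, by simpa using h⟩
  | n + 1, 0, y, x, h => by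
    rw [List.replicate_succ] at h
    simp only [List.replicate_zero, List.nil_append, List.cons_append, List.cons.injEq] at h
    exact absurd h.1 hne
  | n + 1, N + 1, y, x, h => by
    rw [List.replicate_succ, List.replicate_succ] at h
    simp only [List.cons_append, List.cons.injEq, true_and] at h
    obtain ⟨h1, h2⟩ := lead_le hne h
    exact ⟨by omega, by rw [h2]; congr 2; omega⟩

theorem mem_of_rep_eq {T : Type} {a : T} {n : ℕ} {x y : List T}
    (h : List.replicate n a = x ++ y) : (∀ c ∈ x, c = a) ∧ ∀ c ∈ y, c = a :=
  ⟨fun c hc => List.eq_of_mem_replicate (n := n) (by rw [h]; exact List.mem_append_left _ hc),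
    fun c hc => List.eq_of_mem_replicate (n := n) (by rw [h]; exact List.mem_append_right _ hc)⟩

/-- what follows a `b` inside a piece is unary if `a^N b` follows in the word -/
theorem right_unary {T V : Type} {a b : T} {N : ℕ} {v1 v3 x : List T} {A : List (Piece T V)}
    (h : List.replicate N a ++ b :: x = v3 ++ Y A) (hM : ¬ mw a b N <:+: v1 ++ b :: v3) :
    (∀ c ∈ v3, c = a) ∧ v3.length ≤ N := by
  rcases List.append_eq_append_iff.1 h with ⟨m, e, e'⟩ | ⟨m, e, e'⟩
  · rcases m with _ | ⟨c', m⟩
    · rw [List.append_nil] at e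
      rw [e]
      exact ⟨fun c hc => List.eq_of_mem_replicate hc, by simp⟩
    · simp only [List.cons_append, List.cons.injEq] at e'
      exfalso
      apply hM
      rw [e, ← e'.1]
      exact ⟨v1, m, by simp [mw, List.append_assoc]⟩
  · refine ⟨(mem_of_rep_eq e).1, ?_⟩
    have := congrArg List.length e
    rw [List.length_append, List.length_replicate] at this
    omega

theorem code_exists {T V : Type} {a b : T} (hne : a ≠ b) {k N j : ℕ} (hj : j < k)
    {l0 r0 : List T} {ann : List (Piece T V)} {C : ℕ}
    (hl0 : ∀ c ∈ l0, c = a)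
    (hw : uw a b k N ++ uw a b k N = l0 ++ Y ann ++ r0)
    (hr0 : ¬ mw a b N <:+: r0) (hp : ∀ p ∈ ann, ¬ mw a b N <:+: yl p)
    (hseg : ∀ s1 seg s2, ann = s1 ++ seg ++ s2 → (∀ c ∈ Y seg, c = a) → nn seg ≤ C) :
    ∃ c : Code V C, IsCode a b (uw a b k N) l0 ann j c := by
  obtain ⟨P, Q, eu⟩ := uw_split (a := a) (b := b) (N := N) hj
  -- the right part is shorter than a copy
  obtain ⟨m, hm1, hm2⟩ : ∃ m, l0 ++ Y ann = uw a b k N ++ m ∧ uw a b k N = m ++ r0 := by
    rcases List.append_eq_append_iff.1 hw with ⟨m, e, e'⟩ | ⟨m, e, e'⟩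
    · exact ⟨m, e, e'⟩
    · exfalso
      apply hr0
      rw [e', eu]
      exact ⟨m ++ (List.replicate N a ++ P), List.replicate j a ++ mw a b N ++ Q,
        by simp [List.append_assoc]⟩
  -- the left part is inside the first block
  obtain ⟨n, hn⟩ : ∃ n, l0 = List.replicate n a := ⟨_, eq_replicate_of hl0⟩
  have hfirst : ∃ x, uw a b k N = List.replicate N a ++ b :: x := by
    refine ⟨List.replicate N a ++ [b] ++ ((List.range k).map (fun i => i + 1)).flatMap
      (fun j => mw a b N ++ List.replicate j a) ++ [b], ?_⟩
    unfold uw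
    rw [List.range_succ_eq_map, List.flatMap_cons]
    simp [mw, List.append_assoc]
  obtain ⟨x, hx⟩ := hfirst
  have hlead : n ≤ N := by
    rw [hn, hx, List.append_assoc] at hm1
    exact (lead_le hne hm1).1
  have hYann : Y ann = (List.replicate (N - n) a ++ P ++ [b]) ++ List.replicate N a ++
      b :: (List.replicate j a ++ b :: (List.replicate N a ++ b :: (Q ++ m))) := by
    have : List.replicate n a ++ Y ann = List.replicate n a ++
        ((List.replicate (N - n) a ++ P ++ [b]) ++ List.replicate N a ++
      b :: (List.replicate j a ++ b :: (List.replicate N a ++ b :: (Q ++ m)))) := by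
      rw [← hn, hm1, eu, hn]
      have e2 : List.replicate N a = List.replicate n a ++ List.replicate (N - n) a := by
        rw [List.replicate_append_replicate]; congr 1; omega
      simp only [mw, List.append_assoc, List.cons_append, List.nil_append]
      rw [← List.append_assoc (List.replicate n a), ← e2]
    exact List.append_cancel_left this
  obtain ⟨A1, e, A2, v1, v2, h1, h2, h3, h4⟩ := locate ann _ _ b hYann
  have hpe : ¬ mw a b N <:+: yl e := hp e (by rw [h1]; simp)
  -- the left part of `e`
  have hv1 : ∀ c ∈ v1, c = a := by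
    rcases List.append_eq_append_iff.1 h3 with ⟨m', q, q'⟩ | ⟨m', q, q'⟩
    · exact (mem_of_rep_eq q').2
    · rcases List.eq_nil_or_concat m' with rfl | ⟨m'', c, rfl⟩
      · rw [q']
        intro c hc
        exact List.eq_of_mem_replicate (n := N) (by simpa using hc)
      · exfalso
        have hcb : c = b := by
          have := congrArg List.getLast? q
          simpa using this.symm
        apply hpe
        rw [h2, q', hcb]
        exact ⟨m'', v2, by simp [mw, List.append_assoc]⟩
  have hlenW : l0.length + (Y A1).length + v1.length = N + P.length + 1 + N := by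
    have := congrArg List.length h3
    simp only [List.length_append, List.length_replicate, List.length_cons, List.length_nil] at this
    rw [hn, List.length_replicate]
    omega
  have hlenu : (uw a b k N).length = N + P.length + (N + 2) + j + (N + 2) + Q.length := by
    rw [eu]
    simp only [List.length_append, List.length_replicate, length_mw]
  -- the second `b`
  have hcase : (∃ v3, v2 = List.replicate j a ++ b :: v3 ∧
      List.replicate N a ++ b :: (Q ++ m) = v3 ++ Y A2) ∨
      (∃ m', List.replicate j a = v2 ++ m' ∧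
        Y A2 = m' ++ b :: (List.replicate N a ++ b :: (Q ++ m))) := by
    rcases List.append_eq_append_iff.1 h4 with ⟨m', q, q'⟩ | ⟨m', q, q'⟩
    · rcases m' with _ | ⟨c', m'⟩
      · right
        exact ⟨[], by simpa using q.symm, by simpa using q'.symm⟩
      · left
        simp only [List.cons_append, List.cons.injEq] at q'
        exact ⟨m', by rw [q, ← q'.1], q'.2⟩
    · right; exact ⟨m', q, q'⟩
  rcases hcase with ⟨v3, q, q'⟩ | ⟨m', q, q'⟩
  · -- both letters in the same piece
    have hv3 := right_unary (v1 := v1 ++ b :: List.replicate j a) q' (by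
      intro h; apply hpe
      rw [h2, q]
      simpa [List.append_assoc] using h)
    rcases e with t | ⟨Z, v⟩
    · exfalso
      have := congrArg List.length h2
      rw [q] at this
      simp only [yl_inl, List.length_append, List.length_cons, List.length_nil,
        List.length_replicate] at this
      omega
    · refine ⟨Sum.inl Z, A1, v, A2, v1.length, v3.length, h1, ?_, ?_⟩
      · rw [← eq_replicate_of hv1, ← eq_replicate_of hv3.1, ← q]; exact h2
      · have hv : v = v1 ++ b :: v2 := h2
        rw [hv, q, hlenu]
        simp only [List.length_append, List.length_cons, List.length_replicate]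
        have := hv3.2
        omega
  · -- different pieces
    obtain ⟨seg, e', A3, v1', v2', g1, g2, g3, g4⟩ := locate A2 _ _ b q'
    have hpe' : ¬ mw a b N <:+: yl e' := hp e' (by rw [h1, g1]; simp)
    have hv2 := (mem_of_rep_eq q).1
    have hm' := (mem_of_rep_eq q).2
    have hsega : ∀ c ∈ Y seg, c = a := fun c hc => hm' c (by rw [g3]; exact List.mem_append_left _ hc)
    have hv1' : ∀ c ∈ v1', c = a := fun c hc => hm' c (by rw [g3]; exact List.mem_append_right _ hc)
    have hv2' := right_unary (v1 := v1') g4 (by rw [← g2]; exact hpe')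
    have hnnseg : nn seg ≤ C := by
      apply hseg (A1 ++ [e]) seg (e' :: A3) _ hsega
      rw [h1, g1]; simp
    have hjlen : j = v2.length + (Y seg).length + v1'.length := by
      have := congrArg List.length q
      rw [g3] at this
      simp only [List.length_append, List.length_replicate] at this
      omega
    refine ⟨Sum.inr (opt (sym e), ⟨labs seg, by rw [length_labs]; exact hnnseg⟩, opt (sym e')),
      A1, e, seg, e', A3, v1.length, v2.length, v1'.length, v2'.length, ?_, rfl, rfl, rfl, ?_, ?_,
      hsega, hjlen, ?_⟩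
    · rw [h1, g1]
    · rw [← eq_replicate_of hv1, ← eq_replicate_of hv2]; exact h2
    · rw [← eq_replicate_of hv1', ← eq_replicate_of hv2'.1]; exact g2
    · rw [h2, g2, hlenu]
      simp only [List.length_append, List.length_cons]
      have := hv2'.2
      omega

theorem core {T : Type} (G : NFGrammar T) (lt : T → T → Prop)
    (hirr : ∀ x, ¬ lt x x) (a b : T) (hab : lt a b)
    (hrot : ∀ z ∈ G.language, ∀ p q : List T, z = p ++ q → ¬ List.Lex lt (q ++ p) z)
    (hw : ∀ k N : ℕ, k < N → uw a b k N ++ uw a b k N ∈ G.language) : False := by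
  have hne : a ≠ b := by
    intro h; rw [h] at hab; exact hirr b hab
  have := G.finV
  have := G.finF
  have : Fintype G.V := Fintype.ofFinite _
  have hrot' : ∀ z, Lg G.R G.s0 [] z → Least lt z := fun z hz => hrot z hz
  obtain ⟨C, hC⟩ := final_cut (R := G.R) hne hab G.no_pop G.start_push hrot'
  obtain ⟨C4, hC4⟩ := seg_bound (R := G.R) (s0 := G.s0) hab hrot' C
  set k := Nat.card (Code G.V C4) + 1 with hk
  have hkN : k < k + 1 := Nat.lt_succ_self k
  have hwL := hw k (k + 1) hkN
  set u := uw a b k (k + 1) with hu
  have huab : ∀ c ∈ u, c = a ∨ c = b := uw_mem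
  have hwab : ∀ c ∈ u ++ u, c = a ∨ c = b := by
    intro c hc
    rcases List.mem_append.1 hc with h | h <;> exact huab c h
  obtain ⟨X0, τ, l0, r0, ann1, π, ann2, g1, g2, g3, g4, g5, g6, g7, g8, g9, g10⟩ :=
    hC (k + 1) (u ++ u) hwL hwab (uu_hQ (by omega)) (by
      refine ⟨List.replicate (k + 1) a ++ [b] ++ ((List.range k).map (fun i => i + 1)).flatMap
        (fun j => mw a b (k + 1) ++ List.replicate j a) ++ [b] ++ u, ?_⟩
      rw [hu]
      conv_lhs => arg 1; unfold uw
      rw [List.range_succ_eq_map, List.flatMap_cons]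
      simp [mw, List.append_assoc])
  set ann := ann1 ++ π :: ann2 with hann
  have hpab : ∀ p ∈ ann, ∀ c ∈ yl p, c = a ∨ c = b := by
    intro p hp c hc
    apply hwab
    rw [g7]
    have : c ∈ Y ann := List.mem_flatMap.2 ⟨p, hp, hc⟩
    simp [this]
  have hseg := hC4 X0 τ l0 r0 ann1 π ann2 g1 g2 g3 g4 g5 g6 hpab hne g10
  have hex : ∀ j : Fin k, ∃ c : Code G.V C4, IsCode a b u l0 ann j.1 c := fun j =>
    code_exists hne j.2 g2 g7 g8 g9 hseg
  choose f hf using hex
  have hrig : ∀ (Z : G.V) (v v' : List T) (A1 A2 A1' A2' : List (Piece T G.V)),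
      ann = A1 ++ Sum.inr (Z, v) :: A2 → ann = A1' ++ Sum.inr (Z, v') :: A2' →
      (l0 ++ Y A1 ++ v).length ≤ u.length → (l0 ++ Y A1' ++ v').length ≤ u.length →
      v.count b = v'.count b → v = v' := by
    intro Z v v' A1 A2 A1' A2' e e' hlen hlen' hcount
    have repl : ∀ (B1 B2 : List (Piece T G.V)) (x y : List T), ann = B1 ++ Sum.inr (Z, x) :: B2 →
        Lg G.R Z τ y → Least lt (l0 ++ Y B1 ++ y ++ (Y B2 ++ r0)) := by
      intro B1 B2 x y hB hy
      have h1 := g3.fill τ (B1 ++ Sum.inr (Z, y) :: B2) (by rw [hB]; simp) (by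
        intro p hp
        simp only [List.mem_append, List.mem_cons] at hp
        rcases hp with h | h | h
        · exact g4 p (by rw [hB]; simp [h])
        · rw [h]; exact hy
        · exact g4 p (by rw [hB]; simp [h]))
      have h2 := hrot' _ (g1.fill _ h1)
      simpa [List.append_assoc] using h2
    have hv : Lg G.R Z τ v := g4 (Sum.inr (Z, v)) (by rw [e]; simp)
    have hv' : Lg G.R Z τ v' := g4 (Sum.inr (Z, v')) (by rw [e']; simp)
    exact rigid hab hne (u := u) (s := l0 ++ Y A1) (v := v) (t := Y A2 ++ r0)
      (s' := l0 ++ Y A1') (v' := v') (t' := Y A2' ++ r0) huab uw_getLast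
      (by rw [g7, e]; simp [List.append_assoc]) (by rw [g7, e']; simp [List.append_assoc])
      hlen hlen' hcount (repl A1 A2 v v' e hv') (repl A1' A2' v' v e' hv)
  have hinj : Function.Injective f := by
    intro j j' h
    have h1 := hf j
    rw [h] at h1
    exact Fin.ext (code_inj hne hrig h1 (hf j'))
  have hcard := Nat.card_le_card_of_injective f hinj
  rw [Nat.card_fin] at hcard
  omega

end Pool.Agent.Idx60
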