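import Pool.Agent.Idx60.Defs

/-!
MODULE WORD (MP_f95305_al): the witness words.
`M = b a^N b`, `u = a^N (M a^0)(M a^1) ⋯ (M a^k) b`, and `w = u u` is least among its rotations.

Idea: a rotation of `w` starts with a nonempty suffix `t` of `w`; either it is `w` itself, or `t`
starts with a nonempty proper suffix `t'` of `u`, and each such `t'` has the form `a^i b ⋯` with
`i < N` or `a^N b a^i b ⋯` with `i < N`, while `w = a^N b a^N b ⋯` and `a < b`.
-/

namespace Pool.Agent.Idx60

variable {T : Type}

/-- `M = b a^N b` -/
def mw (a b : T) (N : ℕ) : List T := b :: (List.replicate N a ++ [b])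

/-- `u = a^N (M a^0)(M a^1) ⋯ (M a^k) b` -/
def uw (a b : T) (k N : ℕ) : List T :=
  List.replicate N a ++ (List.range (k + 1)).flatMap (fun j => mw a b N ++ List.replicate j a) ++ [b]

/-- the tail after the first block of `a`s -/
private def vw (a b : T) (N : ℕ) (L : List ℕ) : List T :=
  L.flatMap (fun j => mw a b N ++ List.replicate j a) ++ [b]

private theorem vw_nil (a b : T) (N : ℕ) : vw a b N [] = [b] := by
  simp [vw]

private theorem vw_cons (a b : T) (N j : ℕ) (L : List ℕ) :
    vw a b N (j :: L) =
      b :: (List.replicate N a ++ b :: (List.replicate j a ++ vw a b N L)) := by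
  simp [vw, mw, List.flatMap_cons]

private theorem vw_head (a b : T) (N : ℕ) (L : List ℕ) : ∃ r, vw a b N L = b :: r := by
  cases L with
  | nil => exact ⟨[], vw_nil a b N⟩
  | cons j L => exact ⟨_, vw_cons a b N j L⟩

private theorem uw_eq (a b : T) (k N : ℕ) :
    uw a b k N = List.replicate N a ++ vw a b N (List.range (k + 1)) := by
  simp [uw, vw, List.append_assoc]

private theorem suffix_replicate_append (a : T) (t y : List T) :
    ∀ n : ℕ, t <:+ List.replicate n a ++ y →
      (∃ i, i ≤ n ∧ t = List.replicate i a ++ y) ∨ t <:+ y := by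
  intro n
  induction n with
  | zero => intro h; right; simpa using h
  | succ n ih =>
    intro h
    rw [List.replicate_succ, List.cons_append, List.suffix_cons_iff] at h
    rcases h with h | h
    · left
      exact ⟨n + 1, le_rfl, by rw [h, List.replicate_succ, List.cons_append]⟩
    · rcases ih h with ⟨i, hi, e⟩ | h'
      · exact Or.inl ⟨i, hi.trans (Nat.le_succ n), e⟩
      · exact Or.inr h'

/-- starts with `a^i b` or `a^N b a^i b`, `i < N` -/
private def Good (a b : T) (N : ℕ) (t : List T) : Prop :=
  (∃ i, i < N ∧ ∃ r, t = List.replicate i a ++ b :: r) ∨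
    (∃ i, i < N ∧ ∃ r, t = List.replicate N a ++ b :: (List.replicate i a ++ b :: r))

private theorem good_suffix (a b : T) (N : ℕ) (hN : 0 < N) :
    ∀ L : List ℕ, (∀ j ∈ L, j < N) → ∀ t : List T, t ≠ [] → t <:+ vw a b N L → Good a b N t := by
  intro L
  induction L with
  | nil =>
    intro _ t ht h
    rw [vw_nil, List.suffix_cons_iff] at h
    rcases h with h | h
    · exact Or.inl ⟨0, hN, [], by simpa using h⟩
    · exact absurd (List.suffix_nil.mp h) ht
  | cons j L ih =>
    intro hL t ht h
    have hj : j < N := hL j (by simp)
    obtain ⟨r, hr⟩ := vw_head a b N L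
    rw [vw_cons, List.suffix_cons_iff] at h
    rcases h with h | h
    · exact Or.inl ⟨0, hN, _, by simpa using h⟩
    · rcases suffix_replicate_append a t _ N h with ⟨i, hi, e⟩ | h
      · rcases Nat.lt_or_ge i N with hlt | hge
        · exact Or.inl ⟨i, hlt, _, e⟩
        · have hiN : i = N := le_antisymm hi hge
          subst hiN
          exact Or.inr ⟨j, hj, r, by rw [e, hr]⟩
      · rw [List.suffix_cons_iff] at h
        rcases h with h | h
        · exact Or.inl ⟨0, hN, _, by simpa using h⟩
        · rcases suffix_replicate_append a t _ j h with ⟨i, hi, e⟩ | h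
          · exact Or.inl ⟨i, lt_of_le_of_lt hi hj, r, by rw [e, hr]⟩
          · exact ih (fun x hx => hL x (by simp [hx])) t ht h

private theorem lex_append_left {lt : T → T → Prop} (hirr : ∀ x, ¬ lt x x) (l x y : List T)
    (h : List.Lex lt (l ++ x) (l ++ y)) : List.Lex lt x y := by
  induction l with
  | nil => simpa using h
  | cons c l ih =>
    apply ih
    rw [List.cons_append, List.cons_append] at h
    cases h with
    | rel h => exact absurd h (hirr c)
    | cons h => exact h

private theorem lex_irrefl {lt : T → T → Prop} (hirr : ∀ x, ¬ lt x x) (l : List T) :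
    ¬ List.Lex lt l l := by
  intro h
  have := lex_append_left hirr l [] [] (by simpa using h)
  cases this

private theorem not_lex_block {lt : T → T → Prop} (hirr : ∀ x, ¬ lt x x)
    (htr : ∀ x y z, lt x y → lt y z → lt x z) {a b : T} (hab : lt a b) {i N : ℕ} (hi : i < N)
    (l r s : List T) :
    ¬ List.Lex lt (l ++ (List.replicate i a ++ b :: r)) (l ++ (List.replicate N a ++ s)) := by
  intro h
  have h1 := lex_append_left hirr l _ _ h
  obtain ⟨m, rfl⟩ : ∃ m, N = i + (m + 1) := ⟨N - i - 1, by omega⟩
  rw [List.replicate_add, List.append_assoc] at h1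
  have h2 := lex_append_left hirr _ _ _ h1
  rw [List.replicate_succ, List.cons_append] at h2
  cases h2 with
  | rel h => exact hirr a (htr a b a hab h)
  | cons h => exact hirr a hab

theorem uw_least (lt : T → T → Prop) (hirr : ∀ x, ¬ lt x x) (htr : ∀ x y z, lt x y → lt y z → lt x z)
    (a b : T) (hab : lt a b) (k N : ℕ) (hkN : k < N) (p q : List T)
    (h : uw a b k N ++ uw a b k N = p ++ q) :
    ¬ List.Lex lt (q ++ p) (uw a b k N ++ uw a b k N) := by
  have hN : 0 < N := by omega
  set u := uw a b k N with hu
  have hu' : u = List.replicate N a ++ vw a b N (List.range (k + 1)) := uw_eq a b k N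
  have hvw : ∃ r, vw a b N (List.range (k + 1)) =
      b :: (List.replicate N a ++ b :: (List.replicate 0 a ++ r)) := by
    rw [List.range_succ_eq_map]
    exact ⟨_, vw_cons a b N 0 _⟩
  obtain ⟨r0, hr0⟩ := hvw
  -- every nonempty proper suffix of `u` is good
  have hgood : ∀ t : List T, t ≠ [] → t <:+ u → t ≠ u → Good a b N t := by
    intro t ht hs hne
    rw [hu'] at hs
    rcases suffix_replicate_append a t _ N hs with ⟨i, hi, e⟩ | hs
    · rcases Nat.lt_or_ge i N with hlt | hge
      · exact Or.inl ⟨i, hlt, _, by rw [e, hr0]⟩
      · exact absurd (by rw [e, hu', le_antisymm hi hge]) hne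
    · exact good_suffix a b N hN _ (fun j hj => by
        have := List.mem_range.mp hj
        omega) t ht hs
  -- good words are not smaller
  have hbad : ∀ t s : List T, Good a b N t → ¬ List.Lex lt (t ++ s) (u ++ u) := by
    rintro t s (⟨i, hi, r, e⟩ | ⟨i, hi, r, e⟩)
    · have := not_lex_block hirr htr hab hi [] (r ++ s) (vw a b N (List.range (k + 1)) ++ u)
      rw [e]
      intro hlex
      apply this
      simpa [hu', List.append_assoc] using hlex
    · have := not_lex_block hirr htr hab hi (List.replicate N a ++ [b]) (r ++ s)
        (b :: (List.replicate 0 a ++ r0) ++ u)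
      rw [e]
      intro hlex
      apply this
      have hE : u ++ u = List.replicate N a ++ [b] ++
          (List.replicate N a ++ (b :: (List.replicate 0 a ++ r0) ++ u)) := by
        conv_lhs => rw [hu', hr0]
        simp [hu', hr0, List.append_assoc]
      rw [hE] at hlex
      simpa [List.append_assoc] using hlex
  -- cases
  rcases List.append_eq_append_iff.mp h with ⟨c, hp, hq⟩ | ⟨c, hu1, hq⟩
  · -- p = u ++ c, u = c ++ q
    by_cases hc : c = []
    · subst hc
      simp only [List.append_nil, List.nil_append] at hp hq
      rw [hp, ← hq]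
      exact lex_irrefl hirr _
    · by_cases hq0 : q = []
      · subst hq0
        rw [List.nil_append, ← List.append_nil p, ← h]
        exact lex_irrefl hirr _
      · refine hbad q p (hgood q hq0 ⟨c, hq.symm⟩ ?_)
        intro he
        apply hc
        have hl := congrArg List.length hq
        rw [List.length_append, ← he] at hl
        exact List.length_eq_zero_iff.mp (by omega)
  · -- u = p ++ c, q = c ++ u
    by_cases hp0 : p = []
    · subst hp0
      rw [List.append_nil, ← List.nil_append q, ← h]
      exact lex_irrefl hirr _
    · by_cases hc : c = []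
      · subst hc
        simp only [List.append_nil, List.nil_append] at hu1 hq
        rw [hq, ← hu1]
        exact lex_irrefl hirr _
      · rw [hq, List.append_assoc]
        refine hbad c (u ++ p) (hgood c hc ⟨p, hu1.symm⟩ ?_)
        intro he
        apply hp0
        have hl := congrArg List.length hu1
        rw [List.length_append, ← he] at hl
        exact List.length_eq_zero_iff.mp (by omega)

end Pool.Agent.Idx60
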