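import Pool.Agent.Idx60.Exch
import Pool.Agent.Idx60.Word

/-!
The cut: the lowest stack level at which some exposed subtree contains `M = b a^N b`.
-/

namespace Pool.Agent.Idx60

open Classical

variable {T V F : Type}

theorem first_piece {b : T} : ∀ ann : List (Piece T V), b ∈ Y ann →
    ∃ β1 π β2, ann = β1 ++ π :: β2 ∧ b ∉ Y β1 ∧ b ∈ yl π
  | [], h => by simp at h
  | p :: l, h => by
    by_cases hp : b ∈ yl p
    · exact ⟨[], p, l, rfl, by simp, hp⟩
    · have : b ∈ Y l := by
        rw [Y_cons, List.mem_append] at h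
        exact h.resolve_left hp
      obtain ⟨β1, π, β2, e, h1, h2⟩ := first_piece l this
      refine ⟨p :: β1, π, β2, by rw [e]; rfl, ?_, h2⟩
      rw [Y_cons, List.mem_append]
      exact fun h => h.elim hp h1

theorem run_inj {a b : T} (hne : a ≠ b) : ∀ {m n : ℕ} {x y : List T},
    List.replicate m a ++ b :: x = List.replicate n a ++ b :: y → m = n ∧ x = y
  | 0, 0, x, y, h => ⟨rfl, by simpa using h⟩
  | 0, n + 1, x, y, h => by
    rw [List.replicate_succ] at h
    simp only [List.replicate_zero, List.nil_append, List.cons_append, List.cons.injEq] at h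
    exact absurd h.1.symm hne
  | m + 1, 0, x, y, h => by
    rw [List.replicate_succ] at h
    simp only [List.replicate_zero, List.nil_append, List.cons_append, List.cons.injEq] at h
    exact absurd h.1 hne
  | m + 1, n + 1, x, y, h => by
    rw [List.replicate_succ, List.replicate_succ] at h
    simp only [List.cons_append, List.cons.injEq, true_and] at h
    obtain ⟨h1, h2⟩ := run_inj hne h
    exact ⟨by rw [h1], h2⟩

theorem rep_infix_mw (a b : T) (N : ℕ) : List.replicate N a <:+: mw a b N :=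
  ⟨[b], [b], by simp [mw]⟩

theorem length_mw (a b : T) (N : ℕ) : (mw a b N).length = N + 2 := by simp [mw]

theorem b_mem_of_mw {a b : T} {N : ℕ} {l : List T} (h : mw a b N <:+: l) : b ∈ l :=
  h.subset (by simp [mw])

theorem not_mw_of_all {a b : T} (hne : a ≠ b) {N : ℕ} {l : List T} (h : ∀ c ∈ l, c = a) :
    ¬ mw a b N <:+: l := fun h' => hne (h b (b_mem_of_mw h')).symm

theorem not_mw_single (a b t : T) (N : ℕ) : ¬ mw a b N <:+: [t] := by
  intro h
  have := h.length_le
  rw [length_mw, List.length_singleton] at this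
  omega

/-- refinement of a piece to the next lower level -/
def Ref (R : Rule T V F → Prop) (f : F) (τ : List F) (p : Piece T V) (ann : List (Piece T V)) :
    Prop :=
  (∀ t, p = Sum.inl t → ann = [Sum.inl t]) ∧
  (∀ Z v, p = Sum.inr (Z, v) → Dr R Z [f] (ann.map sym)) ∧
  (∀ q ∈ ann, Ok R τ q) ∧ Y ann = yl p

theorem exists_ref {R : Rule T V F → Prop} {f : F} {τ : List F} (p : Piece T V)
    (h : Ok R (f :: τ) p) : ∃ ann, Ref R f τ p ann := by
  rcases p with t | ⟨Z, v⟩
  · refine ⟨[Sum.inl t], ?_, ?_, ?_, ?_⟩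
    · intro t' e; rw [Sum.inl.inj e]
    · intro Z v e; simp at e
    · intro q hq; rw [List.mem_singleton] at hq; subst hq; trivial
    · simp
  · obtain ⟨ann, h1, h2, h3⟩ := Lg.decomp h [f] τ rfl
    refine ⟨ann, ?_, ?_, h2, h3⟩
    · intro t e; simp at e
    · intro Z' v' e
      simp only [Sum.inr.injEq, Prod.mk.injEq] at e
      rw [← e.1]; exact h1

theorem Y_flatMap {g : Piece T V → List (Piece T V)} {ann : List (Piece T V)}
    (h : ∀ p ∈ ann, Y (g p) = yl p) : Y (ann.flatMap g) = Y ann := by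
  induction ann with
  | nil => rfl
  | cons p l ih =>
    rw [List.flatMap_cons, Y_append, Y_cons, h p List.mem_cons_self,
      ih (fun p hp => h p (List.mem_cons_of_mem _ hp))]

theorem nn_flatMap {g : Piece T V → List (Piece T V)} {ann : List (Piece T V)} {C : ℕ}
    (h : ∀ p ∈ ann, nn (g p) ≤ if yl p = [] then 0 else C) : nn (ann.flatMap g) ≤ nn ann * C := by
  induction ann with
  | nil => simp
  | cons p l ih =>
    rw [List.flatMap_cons, nn_append, nn_cons, Nat.add_mul]
    have h1 := h p List.mem_cons_self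
    have h2 := ih (fun p hp => h p (List.mem_cons_of_mem _ hp))
    split_ifs at h1 ⊢ <;> omega

/-- valid cuts at the stack level `τ` -/
def VC (R : Rule T V F → Prop) (s0 : V) (a b : T) (N : ℕ) (w : List T) (τ : List F) : Prop :=
  ∃ (X : V) (l r : List T) (a1 : List (Piece T V)) (π : Piece T V) (a2 : List (Piece T V)),
    Cx R s0 X τ l r ∧ (∀ c ∈ l, c = a) ∧ Dr R X [] ((a1 ++ π :: a2).map sym) ∧
    (∀ p ∈ a1 ++ π :: a2, Ok R τ p) ∧ (∀ c ∈ Y a1, c = a) ∧ b ∈ yl π ∧
    w = l ++ Y (a1 ++ π :: a2) ++ r ∧ ¬ mw a b N <:+: r ∧ mw a b N <:+: Y a2 ++ r ∧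
    ∃ p ∈ π :: a2, mw a b N <:+: yl p

theorem exists_VC {R : Rule T V F → Prop} {s0 : V} {a b : T} (hne : a ≠ b) {N : ℕ} {w : List T}
    (hw : Lg R s0 [] w) (hab : ∀ c ∈ w, c = a ∨ c = b)
    (hQ : ∀ x1 x2 x3 x4 : List T, w = x1 ++ x2 ++ x3 ++ x4 →
      mw a b N <:+: x1 ∨ mw a b N <:+: x2 ∨ mw a b N <:+: x3 ∨ mw a b N <:+: x4) :
    ∃ τ, VC R s0 a b N w τ := by
  have hbw : b ∈ w := by
    rcases hQ w [] [] [] (by simp) with h | h | h | h
    · exact b_mem_of_mw h
    all_goals exact absurd h (not_mw_of_all hne (by simp))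
  obtain ⟨Z, B, C, τ, v1, v2, l, r, h1, h2, h3, h4, h5, h6, h7, h8, h9⟩ :=
    init_cut (M := mw a b N) hab (fun l hl => not_mw_of_all hne hl) (fun t => not_mw_single a b t N)
      hQ hw [] [] Cx.root (by simp) hbw (not_mw_of_all hne (by simp)) (by simp)
  refine ⟨τ, Z, l, r, [], Sum.inr (B, v1), [Sum.inr (C, v2)], h2, h5, ?_, ?_, by simp, h6, ?_, h7,
    by simpa using h8, ?_⟩
  · exact Dr.bin h1 (Dr.hole B) (Dr.hole C)
  · intro p hp
    simp only [List.nil_append, List.mem_cons, List.not_mem_nil, or_false] at hp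
    rcases hp with rfl | rfl
    · exact h3
    · exact h4
  · simpa [List.append_assoc] using h9
  · rcases hQ l v1 v2 r h9 with h | h | h | h
    · exact absurd h (not_mw_of_all hne h5)
    · exact ⟨Sum.inr (B, v1), by simp, h⟩
    · exact ⟨Sum.inr (C, v2), by simp, h⟩
    · exact absurd h h7

theorem hole_of_mw {a b : T} {N : ℕ} {p : Piece T V} (h : mw a b N <:+: yl p) :
    ∃ Z v, p = Sum.inr (Z, v) := by
  rcases p with t | ⟨Z, v⟩
  · exact absurd h (not_mw_single a b t N)
  · exact ⟨Z, v, rfl⟩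

theorem VC_ne_nil {R : Rule T V F → Prop} {s0 s1 : V} {bot : F} {a b : T} (hne : a ≠ b) {N : ℕ}
    {w : List T} (hb : ∀ A B, ¬ R (.pop A bot B))
    (hs : ∀ ρ, R ρ → ρ.src = s0 → ρ = .push s0 s1 bot) : ¬ VC R s0 a b N w [] := by
  rintro ⟨X, l, r, a1, π, a2, h1, h2, h3, h4, h5, h6, h7, h8, h9, p, hp, hp'⟩
  rcases h1.bot_or_root hb hs with ⟨rfl, _, rfl, rfl⟩ | ⟨τ, h⟩
  · obtain ⟨Z, v, rfl⟩ := hole_of_mw hp'
    have hmem : Sum.inr Z ∈ (a1 ++ π :: a2).map sym :=
      List.mem_map.2 ⟨_, List.mem_append_right _ hp, rfl⟩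
    have key : ∀ α : List (T ⊕ V), Dr R X [] α → (α = [Sum.inr X]) ∨ ∀ Z, Sum.inr Z ∉ α := by
      intro α hα
      generalize hσ : ([] : List F) = σ at hα
      cases hα with
      | hole A => left; rfl
      | eps h => right; simp
      | term h => right; simp
      | bin h _ _ => have := hs _ h rfl; simp at this
      | push h hd =>
        have := hs _ h rfl
        simp only [Rule.push.injEq, true_and] at this
        right
        apply hd.no_hole hb
        rw [this.2]; simp
      | pop h _ => simp at hσ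
    rcases key _ h3 with h | h
    · have hlen := congrArg List.length h
      simp only [List.length_map, List.length_append, List.length_cons, List.length_nil] at hlen
      have : a2 = [] := List.length_eq_zero_iff.1 (by omega)
      subst this
      exact not_mw_of_all hne (by simp) h9
    · exact h Z hmem
  · simp at h

end Pool.Agent.Idx60
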