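import Mathlib

/-!
Definitions for MP_f95305_al: indexed grammars in the sense of Aho, and the language of shortlex
conjugacy normal forms of the free group of rank two.
-/

namespace Pool.Agent.Idx60

/-- An indexed grammar in the sense of Aho over the terminal alphabet `T`: finite sets `V` of
nonterminals and `F` of flags, a start symbol, a finite set of productions `A → X₁η₁ ⋯ Xₖηₖ`, and
for every flag `f` a finite set of index productions `A → X₁η₁ ⋯ Xₖηₖ`. An item of a right-hand side
is a terminal, or a nonterminal together with a finite word of flags. -/
structure IndexedGrammar (T : Type) where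
  /-- nonterminals -/
  V : Type
  /-- flags -/
  F : Type
  finV : Finite V
  finF : Finite F
  /-- the start symbol -/
  start : V
  /-- the productions -/
  prods : Set (V × List (T ⊕ V × List F))
  /-- the index productions of a flag -/
  index : F → Set (V × List (T ⊕ V × List F))
  prods_finite : prods.Finite
  index_finite : ∀ f, (index f).Finite

/-- A flag word `ζ` is distributed over an item of a right-hand side: a nonterminal `B` with flags
`η` becomes `B` with flags `ηζ`, a terminal stays. -/
def attach {T V F : Type} (ζ : List F) : T ⊕ V × List F → T ⊕ V × List F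
  | Sum.inl t => Sum.inl t
  | Sum.inr (B, η) => Sum.inr (B, η ++ ζ)

/-- One derivation step of an indexed grammar on sentential forms. -/
inductive Step {T : Type} (G : IndexedGrammar T) :
    List (T ⊕ G.V × List G.F) → List (T ⊕ G.V × List G.F) → Prop
  | plain {A : G.V} {α : List (T ⊕ G.V × List G.F)} {ζ : List G.F}
      {l r : List (T ⊕ G.V × List G.F)} : (A, α) ∈ G.prods →
      Step G (l ++ [Sum.inr (A, ζ)] ++ r) (l ++ α.map (attach ζ) ++ r)
  | index {A : G.V} {f : G.F} {α : List (T ⊕ G.V × List G.F)} {ζ : List G.F}
      {l r : List (T ⊕ G.V × List G.F)} : (A, α) ∈ G.index f →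
      Step G (l ++ [Sum.inr (A, f :: ζ)] ++ r) (l ++ α.map (attach ζ) ++ r)

/-- The language generated by an indexed grammar. -/
def IndexedGrammar.language {T : Type} (G : IndexedGrammar T) : Set (List T) :=
  {w | Relation.ReflTransGen (Step G) [Sum.inr (G.start, [])] (w.map Sum.inl)}

/-- A language is an indexed language if some indexed grammar generates it. -/
def IsIndexed {T : Type} (L : Set (List T)) : Prop :=
  ∃ G : IndexedGrammar T, G.language = L

/-- The alphabet `X = {a, a⁻¹, b, b⁻¹}`: `(0, true)` is `a`, `(0, false)` is `a⁻¹`, `(1, true)` is
`b`, and `(1, false)` is `b⁻¹`. -/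
abbrev X : Type := Fin 2 × Bool

/-- The language `L_<` of shortlex conjugacy normal forms of the free group of rank two: the words
`w` such that, for some conjugacy class `c`, `w` is the shortlex least word representing an element
of `c`. -/
def conjNF (lt : X → X → Prop) : Set (List X) :=
  {w | ∃ c : ConjClasses (FreeGroup (Fin 2)), ConjClasses.mk (FreeGroup.mk w) = c ∧
    ∀ v : List X, ConjClasses.mk (FreeGroup.mk v) = c → v = w ∨ List.Shortlex lt w v}

end Pool.Agent.Idx60
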