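import Pool.Agent.Idx60.NFDefs

/-!
Uniform derivations (with an abstract stack bottom), annotated sentential forms, contexts.
-/

namespace Pool.Agent.Idx60

variable {T V F : Type}

/-- `Dr R A σ α`: uniformly in the bottom of the stack, `A` with stack `σ` above the bottom derives
the sentential form `α`, in which all nonterminals have exactly the bottom as their stack. -/
inductive Dr (R : Rule T V F → Prop) : V → List F → List (T ⊕ V) → Prop
  | hole (A : V) : Dr R A [] [Sum.inr A]
  | eps {A : V} {σ : List F} : R (.eps A) → Dr R A σ []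
  | term {A : V} {σ : List F} {t : T} : R (.term A t) → Dr R A σ [Sum.inl t]
  | bin {A B C : V} {σ : List F} {α β : List (T ⊕ V)} :
      R (.bin A B C) → Dr R B σ α → Dr R C σ β → Dr R A σ (α ++ β)
  | push {A B : V} {f : F} {σ : List F} {α : List (T ⊕ V)} :
      R (.push A B f) → Dr R B (f :: σ) α → Dr R A σ α
  | pop {A B : V} {f : F} {σ : List F} {α : List (T ⊕ V)} :
      R (.pop A f B) → Dr R B σ α → Dr R A (f :: σ) α

/-- pieces of annotated sentential forms: terminals, and nonterminals with their yield -/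
abbrev Piece (T V : Type) : Type := T ⊕ V × List T

/-- the underlying symbol -/
def sym : Piece T V → T ⊕ V
  | Sum.inl t => Sum.inl t
  | Sum.inr (Z, _) => Sum.inr Z

/-- the yield of a piece -/
def yl : Piece T V → List T
  | Sum.inl t => [t]
  | Sum.inr (_, v) => v

@[simp] theorem sym_inl (t : T) : sym (Sum.inl t : Piece T V) = Sum.inl t := rfl
@[simp] theorem sym_inr (Z : V) (v : List T) : sym (Sum.inr (Z, v) : Piece T V) = Sum.inr Z := rfl
@[simp] theorem yl_inl (t : T) : yl (Sum.inl t : Piece T V) = [t] := rfl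
@[simp] theorem yl_inr (Z : V) (v : List T) : yl (Sum.inr (Z, v) : Piece T V) = v := rfl

/-- the yield of an annotated sentential form -/
def Y (ann : List (Piece T V)) : List T := ann.flatMap yl

@[simp] theorem Y_nil : Y ([] : List (Piece T V)) = [] := rfl
@[simp] theorem Y_cons (p : Piece T V) (l : List (Piece T V)) : Y (p :: l) = yl p ++ Y l := rfl
@[simp] theorem Y_append (l m : List (Piece T V)) : Y (l ++ m) = Y l ++ Y m := by
  simp [Y]

/-- a piece is correct for the stack `τ` -/
def Ok (R : Rule T V F → Prop) (τ : List F) : Piece T V → Prop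
  | Sum.inl _ => True
  | Sum.inr (Z, v) => Lg R Z τ v

theorem sym_eq_inr {p : Piece T V} {Z : V} (h : sym p = Sum.inr Z) : ∃ v, p = Sum.inr (Z, v) := by
  rcases p with t | ⟨Z', v⟩
  · simp at h
  · simp at h; exact ⟨v, by rw [h]⟩

theorem sym_eq_inl {p : Piece T V} {t : T} (h : sym p = Sum.inl t) : p = Sum.inl t := by
  rcases p with t | ⟨Z', v⟩
  · simp at h; rw [h]
  · simp at h

/-- (D1) filling the holes -/
theorem Dr.fill {R : Rule T V F → Prop} {A : V} {σ : List F} {α : List (T ⊕ V)}
    (h : Dr R A σ α) (τ : List F) : ∀ ann : List (Piece T V), ann.map sym = α →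
      (∀ p ∈ ann, Ok R τ p) → Lg R A (σ ++ τ) (Y ann) := by
  induction h with
  | hole A =>
    intro ann h1 h2
    obtain ⟨p, rfl, hp⟩ := List.map_eq_singleton_iff.1 h1
    obtain ⟨v, rfl⟩ := sym_eq_inr hp
    simpa [Ok] using h2 _ (List.mem_singleton.2 rfl)
  | eps h =>
    intro ann h1 h2
    have : ann = [] := List.map_eq_nil_iff.1 h1
    subst this
    exact Lg.eps h
  | term h =>
    intro ann h1 h2
    obtain ⟨p, rfl, hp⟩ := List.map_eq_singleton_iff.1 h1
    have := sym_eq_inl hp
    subst this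
    exact Lg.term h
  | bin h _ _ ih1 ih2 =>
    intro ann h1 h2
    obtain ⟨ann1, ann2, rfl, e1, e2⟩ := List.map_eq_append_iff.1 h1
    rw [Y_append]
    exact Lg.bin h (ih1 ann1 e1 (fun p hp => h2 p (List.mem_append_left _ hp)))
      (ih2 ann2 e2 (fun p hp => h2 p (List.mem_append_right _ hp)))
  | push h _ ih =>
    intro ann h1 h2
    exact Lg.push h (ih ann h1 h2)
  | pop h _ ih =>
    intro ann h1 h2
    exact Lg.pop h (ih ann h1 h2)

/-- (D2) decomposing a derivation at a stack level -/
theorem Lg.decomp {R : Rule T V F → Prop} {A : V} {ς : List F} {w : List T}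
    (h : Lg R A ς w) : ∀ σ τ : List F, ς = σ ++ τ →
      ∃ ann : List (Piece T V), Dr R A σ (ann.map sym) ∧ (∀ p ∈ ann, Ok R τ p) ∧ Y ann = w := by
  induction h with
  | eps h => intro σ τ _; exact ⟨[], Dr.eps h, by simp, rfl⟩
  | @term A ς t h => intro σ τ _; exact ⟨[Sum.inl t], Dr.term h, by simp [Ok], rfl⟩
  | bin h _ _ ih1 ih2 =>
    intro σ τ e
    obtain ⟨a1, d1, o1, y1⟩ := ih1 σ τ e
    obtain ⟨a2, d2, o2, y2⟩ := ih2 σ τ e
    refine ⟨a1 ++ a2, ?_, ?_, ?_⟩
    · rw [List.map_append]; exact Dr.bin h d1 d2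
    · intro p hp
      rcases List.mem_append.1 hp with hp | hp
      · exact o1 p hp
      · exact o2 p hp
    · rw [Y_append, y1, y2]
  | @push A B f ς u h _ ih =>
    intro σ τ e
    obtain ⟨a1, d1, o1, y1⟩ := ih (f :: σ) τ (by rw [e]; rfl)
    exact ⟨a1, Dr.push h d1, o1, y1⟩
  | @pop A B f ς u h hL ih =>
    intro σ τ e
    rcases σ with _ | ⟨g, σ⟩
    · refine ⟨[Sum.inr (A, u)], Dr.hole A, ?_, by simp⟩
      intro p hp
      rw [List.mem_singleton] at hp
      subst hp
      simp only [List.nil_append] at e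
      rw [← e]
      exact Lg.pop h hL
    · simp only [List.cons_append, List.cons.injEq] at e
      obtain ⟨rfl, e⟩ := e
      obtain ⟨a1, d1, o1, y1⟩ := ih σ τ e
      exact ⟨a1, Dr.pop h d1, o1, y1⟩

/-- (D3) composition of uniform derivations -/
theorem Dr.comp {R : Rule T V F → Prop} {A : V} {σ : List F} {α : List (T ⊕ V)}
    (h : Dr R A σ α) (ρ : List F) (g : Piece T V → List (Piece T V)) :
    ∀ ann : List (Piece T V), ann.map sym = α →
      (∀ t, Sum.inl t ∈ ann → g (Sum.inl t) = [Sum.inl t]) →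
      (∀ Z v, Sum.inr (Z, v) ∈ ann → Dr R Z ρ ((g (Sum.inr (Z, v))).map sym)) →
      Dr R A (σ ++ ρ) ((ann.flatMap g).map sym) := by
  induction h with
  | hole A =>
    intro ann h1 h2 h3
    obtain ⟨p, rfl, hp⟩ := List.map_eq_singleton_iff.1 h1
    obtain ⟨v, rfl⟩ := sym_eq_inr hp
    simpa using h3 _ _ (List.mem_singleton.2 rfl)
  | eps h =>
    intro ann h1 h2 h3
    have : ann = [] := List.map_eq_nil_iff.1 h1
    subst this
    exact Dr.eps h
  | @term A σ t h =>
    intro ann h1 h2 h3
    obtain ⟨p, rfl, hp⟩ := List.map_eq_singleton_iff.1 h1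
    have := sym_eq_inl hp
    subst this
    have := h2 t (List.mem_singleton.2 rfl)
    simp only [List.flatMap_cons, List.flatMap_nil, List.append_nil, this, List.map_cons, sym_inl,
      List.map_nil]
    exact Dr.term h
  | bin h _ _ ih1 ih2 =>
    intro ann h1 h2 h3
    obtain ⟨ann1, ann2, rfl, e1, e2⟩ := List.map_eq_append_iff.1 h1
    rw [List.flatMap_append, List.map_append]
    exact Dr.bin h
      (ih1 ann1 e1 (fun t ht => h2 t (List.mem_append_left _ ht))
        (fun Z v hp => h3 Z v (List.mem_append_left _ hp)))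
      (ih2 ann2 e2 (fun t ht => h2 t (List.mem_append_right _ ht))
        (fun Z v hp => h3 Z v (List.mem_append_right _ hp)))
  | push h _ ih =>
    intro ann h1 h2 h3
    exact Dr.push h (ih ann h1 h2 h3)
  | pop h _ ih =>
    intro ann h1 h2 h3
    exact Dr.pop h (ih ann h1 h2 h3)

/-- `Cx R S A σ l r`: the start symbol `S` with empty stack derives `l A[σ] r` -/
inductive Cx (R : Rule T V F → Prop) (S : V) : V → List F → List T → List T → Prop
  | root : Cx R S S [] [] []
  | binL {A B C : V} {σ : List F} {l r v : List T} :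
      R (.bin A B C) → Cx R S A σ l r → Lg R C σ v → Cx R S B σ l (v ++ r)
  | binR {A B C : V} {σ : List F} {l r v : List T} :
      R (.bin A B C) → Cx R S A σ l r → Lg R B σ v → Cx R S C σ (l ++ v) r
  | push {A B : V} {f : F} {σ : List F} {l r : List T} :
      R (.push A B f) → Cx R S A σ l r → Cx R S B (f :: σ) l r
  | pop {A B : V} {f : F} {σ : List F} {l r : List T} :
      R (.pop A f B) → Cx R S A (f :: σ) l r → Cx R S B σ l r

/-- (C1) filling a context -/
theorem Cx.fill {R : Rule T V F → Prop} {S A : V} {σ : List F} {l r : List T}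
    (h : Cx R S A σ l r) : ∀ v, Lg R A σ v → Lg R S [] (l ++ v ++ r) := by
  induction h with
  | root => intro v hv; simpa using hv
  | binL h _ hC ih =>
    intro u hu
    have := ih _ (Lg.bin h hu hC)
    simpa [List.append_assoc] using this
  | binR h _ hB ih =>
    intro u hu
    have := ih _ (Lg.bin h hB hu)
    simpa [List.append_assoc] using this
  | push h _ ih => intro v hv; exact ih v (Lg.push h hv)
  | pop h _ ih => intro v hv; exact ih v (Lg.pop h hv)

/-- uniform contexts -/
inductive Ux (R : Rule T V F → Prop) (X0 : V) : V → List F → List (T ⊕ V) → List (T ⊕ V) → Prop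
  | root : Ux R X0 X0 [] [] []
  | binL {A B C : V} {σ : List F} {l r v : List (T ⊕ V)} :
      R (.bin A B C) → Ux R X0 A σ l r → Dr R C σ v → Ux R X0 B σ l (v ++ r)
  | binR {A B C : V} {σ : List F} {l r v : List (T ⊕ V)} :
      R (.bin A B C) → Ux R X0 A σ l r → Dr R B σ v → Ux R X0 C σ (l ++ v) r
  | push {A B : V} {f : F} {σ : List F} {l r : List (T ⊕ V)} :
      R (.push A B f) → Ux R X0 A σ l r → Ux R X0 B (f :: σ) l r
  | pop {A B : V} {f : F} {σ : List F} {l r : List (T ⊕ V)} :
      R (.pop A f B) → Ux R X0 A (f :: σ) l r → Ux R X0 B σ l r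

/-- (U1) filling a uniform context -/
theorem Ux.fill {R : Rule T V F → Prop} {X0 A : V} {σ : List F} {l r : List (T ⊕ V)}
    (h : Ux R X0 A σ l r) : ∀ v, Dr R A σ v → Dr R X0 [] (l ++ v ++ r) := by
  induction h with
  | root => intro v hv; simpa using hv
  | binL h _ hC ih =>
    intro u hu
    have := ih _ (Dr.bin h hu hC)
    simpa [List.append_assoc] using this
  | binR h _ hB ih =>
    intro u hu
    have := ih _ (Dr.bin h hB hu)
    simpa [List.append_assoc] using this
  | push h _ ih => intro v hv; exact ih v (Dr.push h hv)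
  | pop h _ ih => intro v hv; exact ih v (Dr.pop h hv)

/-- (D4) the push of a given stack symbol above a context -/
theorem Cx.split {R : Rule T V F → Prop} {S X : V} {ς : List F} {l r : List T}
    (h : Cx R S X ς l r) : ∀ (σ : List F) (f : F) (τ : List F), ς = σ ++ f :: τ →
      ∃ (X0 X1 : V) (l0 r0 : List T) (aL aR : List (Piece T V)), R (.push X0 X1 f) ∧
        Cx R S X0 τ l0 r0 ∧ Ux R X1 X σ (aL.map sym) (aR.map sym) ∧
        (∀ p ∈ aL, Ok R (f :: τ) p) ∧ (∀ p ∈ aR, Ok R (f :: τ) p) ∧
        l = l0 ++ Y aL ∧ r = Y aR ++ r0 := by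
  induction h with
  | root => intro σ f τ e; simp at e
  | @binL A B C ς l r v h _ hC ih =>
    intro σ f τ e
    obtain ⟨X0, X1, l0, r0, aL, aR, hp, hc, hu, oL, oR, el, er⟩ := ih σ f τ e
    obtain ⟨ac, dc, oc, yc⟩ := hC.decomp σ (f :: τ) e
    refine ⟨X0, X1, l0, r0, aL, ac ++ aR, hp, hc, ?_, oL, ?_, el, ?_⟩
    · rw [List.map_append]; exact Ux.binL h hu dc
    · intro p hp
      rcases List.mem_append.1 hp with hp | hp
      · exact oc p hp
      · exact oR p hp
    · rw [Y_append, yc, er, List.append_assoc]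
  | @binR A B C ς l r v h _ hB ih =>
    intro σ f τ e
    obtain ⟨X0, X1, l0, r0, aL, aR, hp, hc, hu, oL, oR, el, er⟩ := ih σ f τ e
    obtain ⟨ab, db, ob, yb⟩ := hB.decomp σ (f :: τ) e
    refine ⟨X0, X1, l0, r0, aL ++ ab, aR, hp, hc, ?_, ?_, oR, ?_, er⟩
    · rw [List.map_append]; exact Ux.binR h hu db
    · intro p hp
      rcases List.mem_append.1 hp with hp | hp
      · exact oL p hp
      · exact ob p hp
    · rw [Y_append, yb, el, List.append_assoc]
  | @push A B g ς l r h hA ih =>
    intro σ f τ e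
    rcases σ with _ | ⟨g', σ⟩
    · simp only [List.nil_append, List.cons.injEq] at e
      obtain ⟨rfl, rfl⟩ := e
      exact ⟨A, B, l, r, [], [], h, hA, Ux.root, by simp, by simp, by simp, by simp⟩
    · simp only [List.cons_append, List.cons.injEq] at e
      obtain ⟨rfl, e⟩ := e
      obtain ⟨X0, X1, l0, r0, aL, aR, hp, hc, hu, oL, oR, el, er⟩ := ih σ f τ e
      exact ⟨X0, X1, l0, r0, aL, aR, hp, hc, Ux.push h hu, oL, oR, el, er⟩
  | @pop A B g ς l r h hA ih =>
    intro σ f τ e
    obtain ⟨X0, X1, l0, r0, aL, aR, hp, hc, hu, oL, oR, el, er⟩ := ih (g :: σ) f τ (by rw [e]; rfl)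
    exact ⟨X0, X1, l0, r0, aL, aR, hp, hc, Ux.pop h hu, oL, oR, el, er⟩

/-- a factor with no letter `b` of a word over `{a, b}` is a word over `{a}` -/
theorem all_a_of_not_mem {a b : T} {w x y z : List T} (hab : ∀ c ∈ w, c = a ∨ c = b)
    (hw : w = x ++ y ++ z) (hy : b ∉ y) : ∀ c ∈ y, c = a := by
  intro c hc
  rcases hab c (by rw [hw]; simp [hc]) with h | h
  · exact h
  · exact absurd (h ▸ hc) hy

/-- the initial cut -/
theorem init_cut {R : Rule T V F → Prop} {S : V} {a b : T} {M w : List T}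
    (hab : ∀ c ∈ w, c = a ∨ c = b)
    (hMa : ∀ l : List T, (∀ c ∈ l, c = a) → ¬ M <:+: l) (hM1 : ∀ t : T, ¬ M <:+: [t])
    (hQ : ∀ x1 x2 x3 x4 : List T, w = x1 ++ x2 ++ x3 ++ x4 →
      M <:+: x1 ∨ M <:+: x2 ∨ M <:+: x3 ∨ M <:+: x4)
    {A : V} {σ : List F} {v : List T} (h : Lg R A σ v) :
    ∀ l r : List T, Cx R S A σ l r → (∀ c ∈ l, c = a) → b ∈ v → ¬ M <:+: r → w = l ++ v ++ r →
      ∃ (Z B C : V) (τ : List F) (v1 v2 l' r' : List T), R (.bin Z B C) ∧ Cx R S Z τ l' r' ∧
        Lg R B τ v1 ∧ Lg R C τ v2 ∧ (∀ c ∈ l', c = a) ∧ b ∈ v1 ∧ ¬ M <:+: r' ∧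
        M <:+: v2 ++ r' ∧ w = l' ++ v1 ++ v2 ++ r' := by
  induction h with
  | eps h => intro l r _ _ hb; simp at hb
  | @term A σ t h =>
    intro l r hc hl hb hr hw
    exfalso
    rcases hQ l [t] r [] (by simpa using hw) with h | h | h | h
    · exact hMa l hl h
    · exact hM1 t h
    · exact hr h
    · exact hMa [] (by simp) h
  | @bin A B C σ u v h hB hC ihB ihC =>
    intro l r hc hl hb hr hw
    by_cases hu : b ∈ u
    · by_cases hv : M <:+: v ++ r
      · exact ⟨A, B, C, σ, u, v, l, r, h, hc, hB, hC, hl, hu, hr, hv,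
          by simpa [List.append_assoc] using hw⟩
      · exact ihB l (v ++ r) (Cx.binL h hc hC) hl hu hv (by simpa [List.append_assoc] using hw)
    · have hu' : ∀ c ∈ u, c = a :=
        all_a_of_not_mem (x := l) (z := v ++ r) hab (by simpa [List.append_assoc] using hw) hu
      refine ihC (l ++ u) r (Cx.binR h hc hB) ?_ ?_ hr (by simpa [List.append_assoc] using hw)
      · intro c hc
        rcases List.mem_append.1 hc with h | h
        · exact hl c h
        · exact hu' c h
      · rcases List.mem_append.1 hb with h | h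
        · exact absurd h hu
        · exact h
  | @push A B f σ u h _ ih =>
    intro l r hc hl hb hr hw
    exact ih l r (Cx.push h hc) hl hb hr hw
  | @pop A B f σ u h _ ih =>
    intro l r hc hl hb hr hw
    exact ih l r (Cx.pop h hc) hl hb hr hw

/-- no holes below a bottom symbol that is never popped -/
theorem Dr.no_hole {R : Rule T V F → Prop} {bot : F} (hb : ∀ A B, ¬ R (.pop A bot B))
    {A : V} {σ : List F} {α : List (T ⊕ V)} (h : Dr R A σ α) (hσ : bot ∈ σ) :
    ∀ Z, Sum.inr Z ∉ α := by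
  induction h with
  | hole A => simp at hσ
  | eps h => simp
  | term h => simp
  | bin h _ _ ih1 ih2 =>
    intro Z hZ
    rcases List.mem_append.1 hZ with h | h
    · exact ih1 hσ Z h
    · exact ih2 hσ Z h
  | push h _ ih => exact ih (List.mem_cons_of_mem _ hσ)
  | @pop A B f σ α h _ ih =>
    rcases List.mem_cons.1 hσ with h' | h'
    · subst h'; exact absurd h (hb _ _)
    · exact ih h'

/-- the stack in a context is empty only at the root -/
theorem Cx.bot_or_root {R : Rule T V F → Prop} {s0 s1 : V} {bot : F}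
    (hb : ∀ A B, ¬ R (.pop A bot B)) (hs : ∀ ρ, R ρ → ρ.src = s0 → ρ = .push s0 s1 bot)
    {X : V} {σ : List F} {l r : List T} (h : Cx R s0 X σ l r) :
    (X = s0 ∧ σ = [] ∧ l = [] ∧ r = []) ∨ ∃ τ, σ = τ ++ [bot] := by
  induction h with
  | root => left; exact ⟨rfl, rfl, rfl, rfl⟩
  | @binL A B C σ l r v h _ _ ih =>
    rcases ih with ⟨rfl, _⟩ | h'
    · have := hs _ h rfl; simp at this
    · exact Or.inr h'
  | @binR A B C σ l r v h _ _ ih =>
    rcases ih with ⟨rfl, _⟩ | h'
    · have := hs _ h rfl; simp at this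
    · exact Or.inr h'
  | @push A B f σ l r h _ ih =>
    rcases ih with ⟨rfl, rfl, _, _⟩ | ⟨τ, rfl⟩
    · have := hs _ h rfl
      simp only [Rule.push.injEq, true_and] at this
      right; exact ⟨[], by simp [this.2]⟩
    · right; exact ⟨f :: τ, rfl⟩
  | @pop A B f σ l r h _ ih =>
    rcases ih with ⟨rfl, h', _⟩ | ⟨τ, h'⟩
    · simp at h'
    · rcases τ with _ | ⟨g, τ⟩
      · simp only [List.nil_append, List.cons.injEq] at h'
        obtain ⟨rfl, rfl⟩ := h'
        exact absurd h (hb _ _)
      · simp only [List.cons_append, List.cons.injEq] at h'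
        right; exact ⟨τ, h'.2⟩

end Pool.Agent.Idx60
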