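import Pool.Agent.Idx60.Deriv

/-!
Dickson's lemma and the bound on the number of nonempty pieces in a unary part of minimal length.
-/

namespace Pool.Agent.Idx60

open Classical

variable {T V F : Type}

theorem dickson {ι : Type} [Fintype ι] (S : Set (ι → ℕ)) :
    ∃ C : ℕ, ∀ x ∈ S, ∃ y ∈ S, y ≤ x ∧ ∑ i, y i ≤ C := by
  have hfin : {y | Minimal (· ∈ S) y}.Finite := by
    apply WellQuasiOrderedLE.finite_of_isAntichain
    intro x hx y hy hne hle
    exact hne (le_antisymm hle (hy.2 hx.1 hle))
  obtain ⟨C, hC⟩ := (hfin.image (fun y => ∑ i, y i)).bddAbove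
  refine ⟨C, fun x hx => ?_⟩
  obtain ⟨y, hyx, hy⟩ := (Set.isPWO_of_wellQuasiOrderedLE S).exists_le_minimal hx
  exact ⟨y, hy.1, hyx, hC ⟨y, hy, rfl⟩⟩

theorem dickson_family {I ι : Type} [Finite I] [Fintype ι] (S : I → Set (ι → ℕ)) :
    ∃ C : ℕ, ∀ i, ∀ x ∈ S i, ∃ y ∈ S i, y ≤ x ∧ ∑ j, y j ≤ C := by
  choose C hC using fun i => dickson (S i)
  have : (Set.range C).Finite := Set.finite_range C
  obtain ⟨D, hD⟩ := this.bddAbove
  refine ⟨D, fun i x hx => ?_⟩
  obtain ⟨y, hy, hyx, hs⟩ := hC i x hx
  exact ⟨y, hy, hyx, hs.trans (hD ⟨i, rfl⟩)⟩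

/-- the label of a symbol: `none` for terminals -/
def opt : T ⊕ V → Option V
  | Sum.inl _ => none
  | Sum.inr Z => some Z

@[simp] theorem opt_inl (t : T) : opt (Sum.inl t : T ⊕ V) = none := rfl
@[simp] theorem opt_inr (Z : V) : opt (Sum.inr Z : T ⊕ V) = some Z := rfl

/-- the vector of multiplicities of labels -/
noncomputable def vec (α : List (T ⊕ V)) : Option V → ℕ := fun o => (α.map opt).count o

theorem sum_map_vec [Fintype V] (μ : Option V → ℕ) (α : List (T ⊕ V)) :
    (α.map (fun s => μ (opt s))).sum = ∑ o, vec α o * μ o := by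
  induction α with
  | nil => simp [vec]
  | cons s α ih =>
    have : ∀ o, vec (s :: α) o * μ o = (if opt s = o then μ o else 0) + vec α o * μ o := by
      intro o
      simp only [vec, List.map_cons, List.count_cons, beq_iff_eq]
      split_ifs <;> ring
    simp only [this, Finset.sum_add_distrib, Finset.sum_ite_eq, Finset.mem_univ, if_true,
      List.map_cons, List.sum_cons, ih]

/-- number of pieces with nonempty yield -/
def nn (ann : List (Piece T V)) : ℕ := ann.countP (fun p => !(yl p).isEmpty)

@[simp] theorem nn_nil : nn ([] : List (Piece T V)) = 0 := rfl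

theorem nn_append (l m : List (Piece T V)) : nn (l ++ m) = nn l + nn m := by
  simp [nn]

theorem nn_cons (p : Piece T V) (m : List (Piece T V)) :
    nn (p :: m) = (if yl p = [] then 0 else 1) + nn m := by
  simp only [nn, List.countP_cons]
  by_cases h : yl p = []
  · simp [h]
  · have : (yl p).isEmpty = false := by
      cases h' : yl p with
      | nil => exact absurd h' h
      | cons _ _ => rfl
    simp [h, this, Nat.add_comm]

theorem length_Y (ann : List (Piece T V)) : (Y ann).length = (ann.map (fun p => (yl p).length)).sum := by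
  induction ann with
  | nil => rfl
  | cons p l ih => simp [ih]

theorem nn_eq_sum (ann : List (Piece T V)) :
    nn ann = (ann.map (fun p => if yl p = [] then 0 else 1)).sum := by
  induction ann with
  | nil => rfl
  | cons p l ih => rw [nn_cons, ih]; simp

theorem nn_le_length (ann : List (Piece T V)) : nn ann ≤ (Y ann).length := by
  induction ann with
  | nil => simp
  | cons p l ih =>
    rw [nn_cons, Y_cons, List.length_append]
    split_ifs with h
    · simp [h]; exact ih
    · have : 0 < (yl p).length := List.length_pos_iff.2 h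
      omega

theorem list_eq_of_sum_le {α : Type} (l : List α) (f g : α → ℕ) (h : ∀ p ∈ l, f p ≤ g p)
    (hs : (l.map g).sum ≤ (l.map f).sum) : ∀ p ∈ l, g p = f p := by
  induction l with
  | nil => simp
  | cons q l ih =>
    have h1 : f q ≤ g q := h q (List.mem_cons_self)
    have h2 : (l.map f).sum ≤ (l.map g).sum := by
      apply List.sum_le_sum
      intro p hp
      exact h p (List.mem_cons_of_mem _ hp)
    simp only [List.map_cons, List.sum_cons] at hs
    intro p hp
    rcases List.mem_cons.1 hp with rfl | hp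
    · omega
    · exact ih (fun p hp => h p (List.mem_cons_of_mem _ hp)) (by omega) p hp

/-- the bound on the number of nonempty pieces -/
theorem bound_ann [Fintype V] {S : Set (Option V → ℕ)} {C : ℕ}
    (hC : ∀ x ∈ S, ∃ y ∈ S, y ≤ x ∧ ∑ o, y o ≤ C) (μ : Option V → ℕ)
    (ann : List (Piece T V)) (hge : ∀ p ∈ ann, μ (opt (sym p)) ≤ (yl p).length)
    (hmem : vec (ann.map sym) ∈ S) (hmin : ∀ y ∈ S, (Y ann).length ≤ ∑ o, y o * μ o) :
    (∀ p ∈ ann, (yl p).length = μ (opt (sym p))) ∧ nn ann ≤ C := by
  have hsum : ((ann.map sym).map (fun s => μ (opt s))).sum = ∑ o, vec (ann.map sym) o * μ o :=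
    sum_map_vec μ _
  rw [List.map_map] at hsum
  have h1 := hmin _ hmem
  have heq : ∀ p ∈ ann, (yl p).length = μ (opt (sym p)) := by
    apply list_eq_of_sum_le ann (fun p => μ (opt (sym p))) (fun p => (yl p).length) hge
    rw [← length_Y]
    calc (Y ann).length ≤ _ := h1
      _ = _ := hsum.symm
      _ = _ := rfl
  refine ⟨heq, ?_⟩
  obtain ⟨y, hy, hyx, hyC⟩ := hC _ hmem
  have h2 := hmin y hy
  have h3 : (Y ann).length = ∑ o, vec (ann.map sym) o * μ o := by
    rw [← hsum, length_Y]
    congr 1
    apply List.map_congr_left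
    intro p hp
    exact heq p hp
  have h4 : ∀ o ∈ (Finset.univ : Finset (Option V)), y o * μ o ≤ vec (ann.map sym) o * μ o :=
    fun o _ => Nat.mul_le_mul_right _ (hyx o)
  have h5 : ∑ o, y o * μ o = ∑ o, vec (ann.map sym) o * μ o :=
    le_antisymm (Finset.sum_le_sum h4) (by omega)
  have h6 := (Finset.sum_eq_sum_iff_of_le h4).1 h5
  rw [nn_eq_sum]
  have h7 : (ann.map (fun p => if yl p = [] then 0 else 1)).sum =
      ((ann.map sym).map (fun s => (fun o : Option V => if μ o = 0 then 0 else 1) (opt s))).sum := by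
    rw [List.map_map]
    congr 1
    apply List.map_congr_left
    intro p hp
    have := heq p hp
    simp only [Function.comp_apply]
    by_cases h : yl p = []
    · rw [if_pos h, if_pos]; rw [← this, h]; rfl
    · rw [if_neg h, if_neg]; rw [← this]; exact fun h' => h (List.length_eq_zero_iff.1 h')
  rw [h7, sum_map_vec (fun o : Option V => if μ o = 0 then 0 else 1)]
  refine le_trans (Finset.sum_le_sum (g := fun o => y o) ?_) hyC
  intro o ho
  by_cases h : μ o = 0
  · simp [h]
  · have := h6 o ho
    have := Nat.eq_of_mul_eq_mul_right (Nat.pos_of_ne_zero h) this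
    simp [h, this]

end Pool.Agent.Idx60
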