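import Pool.Agent.Idx60.Rot

/-!
Exchange arguments: bounds for the number of nonempty pieces of the first block.
-/

namespace Pool.Agent.Idx60

open Classical

variable {T V F : Type}

/-- nonterminals deriving a unary word from the stack `τ` -/
def UN (R : Rule T V F → Prop) (a : T) (τ : List F) : Set V :=
  {Z | ∃ n, Lg R Z τ (List.replicate n a)}

/-- productive nonterminals for the stack `τ` -/
def PR (R : Rule T V F → Prop) (τ : List F) : Set V := {Z | ∃ v, Lg R Z τ v}

/-- minimal lengths of unary yields -/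
noncomputable def mu (R : Rule T V F → Prop) (a : T) (τ : List F) : Option V → ℕ
  | none => 1
  | some Z => if h : ∃ n, Lg R Z τ (List.replicate n a) then Nat.find h else 0

theorem mu_spec {R : Rule T V F → Prop} {a : T} {τ : List F} {Z : V} (h : Z ∈ UN R a τ) :
    Lg R Z τ (List.replicate (mu R a τ (some Z)) a) := by
  have h' : ∃ n, Lg R Z τ (List.replicate n a) := h
  simp only [mu, dif_pos h']
  exact Nat.find_spec h'

theorem mu_le {R : Rule T V F → Prop} {a : T} {τ : List F} {Z : V} {n : ℕ}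
    (h : Lg R Z τ (List.replicate n a)) : mu R a τ (some Z) ≤ n := by
  have h' : ∃ n, Lg R Z τ (List.replicate n a) := ⟨n, h⟩
  simp only [mu, dif_pos h']
  exact Nat.find_min' h' h

/-- filling with minimal unary words -/
noncomputable def fillU (R : Rule T V F → Prop) (a : T) (τ : List F) : T ⊕ V → Piece T V
  | Sum.inl t => Sum.inl t
  | Sum.inr Z => Sum.inr (Z, List.replicate (mu R a τ (some Z)) a)

/-- filling with given words -/
def fillP (pr : V → List T) : T ⊕ V → Piece T V
  | Sum.inl t => Sum.inl t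
  | Sum.inr Z => Sum.inr (Z, pr Z)

theorem fillU_spec {R : Rule T V F → Prop} {a : T} {τ : List F} {α : List (T ⊕ V)}
    (h : ∀ s ∈ α, s = Sum.inl a ∨ ∃ Z ∈ UN R a τ, s = Sum.inr Z) :
    (∀ p ∈ α.map (fillU R a τ), Ok R τ p) ∧ (α.map (fillU R a τ)).map sym = α ∧
      Y (α.map (fillU R a τ)) = List.replicate ((α.map (fun s => mu R a τ (opt s))).sum) a := by
  induction α with
  | nil => simp
  | cons s α ih =>
    obtain ⟨h1, h2, h3⟩ := ih (fun s hs => h s (List.mem_cons_of_mem _ hs))
    have hs := h s List.mem_cons_self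
    refine ⟨?_, ?_, ?_⟩
    · intro p hp
      rw [List.map_cons, List.mem_cons] at hp
      rcases hp with rfl | hp
      · rcases hs with rfl | ⟨Z, hZ, rfl⟩
        · trivial
        · exact mu_spec hZ
      · exact h1 p hp
    · rw [List.map_cons, List.map_cons, h2]
      rcases s with t | Z <;> rfl
    · rw [List.map_cons, Y_cons, h3, List.map_cons, List.sum_cons, List.replicate_add]
      congr 1
      rcases hs with rfl | ⟨Z, hZ, rfl⟩
      · simp [fillU, mu]
      · rfl

theorem fillP_spec {R : Rule T V F → Prop} {τ : List F} {α : List (T ⊕ V)} {pr : V → List T}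
    (h : ∀ Z, Sum.inr Z ∈ α → Lg R Z τ (pr Z)) :
    (∀ p ∈ α.map (fillP pr), Ok R τ p) ∧ (α.map (fillP pr)).map sym = α ∧
      (∀ Z, Sum.inr Z ∈ α → pr Z <:+: Y (α.map (fillP pr))) := by
  refine ⟨?_, ?_, ?_⟩
  · intro p hp
    obtain ⟨s, hs, rfl⟩ := List.mem_map.1 hp
    rcases s with t | Z
    · trivial
    · exact h Z hs
  · rw [List.map_map]
    conv_rhs => rw [← List.map_id α]
    apply List.map_congr_left
    intro s _
    rcases s with t | Z <;> rfl
  · intro Z hZ
    obtain ⟨s, t, e⟩ := List.append_of_mem hZ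
    refine ⟨Y (s.map (fillP pr)), Y (t.map (fillP pr)), ?_⟩
    rw [e]; simp [fillP]

/-- the symbol with a given label -/
def sy (b : T) : Option V → T ⊕ V
  | none => Sum.inl b
  | some Z => Sum.inr Z

/-- vectors of unary parts in front of a provider -/
def SP (R : Rule T V F → Prop) (a b : T) (Z : V) (of : Option F) (op : Option V) (oz : Option V)
    (U P : Set V) : Set (Option V → ℕ) :=
  {x | ∃ α1 α2 : List (T ⊕ V), x = vec α1 ∧ Dr R Z of.toList (α1 ++ sy b op :: α2) ∧
    (∀ s ∈ α1, s = Sum.inl a ∨ ∃ Z' ∈ U, s = Sum.inr Z') ∧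
    (∀ Z', Sum.inr Z' ∈ α2 → Z' ∈ P) ∧ (∀ Z', oz = some Z' → Sum.inr Z' ∈ α2)}

/-- vectors of unary derivations -/
def SU (R : Rule T V F → Prop) (a : T) (Z : V) (f : F) (U : Set V) : Set (Option V → ℕ) :=
  {x | ∃ α : List (T ⊕ V), x = vec α ∧ Dr R Z [f] α ∧
    (∀ s ∈ α, s = Sum.inl a ∨ ∃ Z' ∈ U, s = Sum.inr Z')}

theorem SP_bound [Fintype V] [Finite F] (R : Rule T V F → Prop) (a b : T) : ∃ C : ℕ,
    ∀ (Z : V) (of : Option F) (op oz : Option V) (U P : Set V),
      ∀ x ∈ SP R a b Z of op oz U P, ∃ y ∈ SP R a b Z of op oz U P, y ≤ x ∧ ∑ o, y o ≤ C := by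
  obtain ⟨C, hC⟩ := dickson_family
    (I := V × Option F × Option V × Option V × Set V × Set V)
    (fun i => SP R a b i.1 i.2.1 i.2.2.1 i.2.2.2.1 i.2.2.2.2.1 i.2.2.2.2.2)
  exact ⟨C, fun Z of op oz U P => hC (Z, of, op, oz, U, P)⟩

theorem SU_bound [Fintype V] [Finite F] (R : Rule T V F → Prop) (a : T) : ∃ C : ℕ,
    ∀ (Z : V) (f : F) (U : Set V),
      ∀ x ∈ SU R a Z f U, ∃ y ∈ SU R a Z f U, y ≤ x ∧ ∑ o, y o ≤ C := by
  obtain ⟨C, hC⟩ := dickson_family (I := V × F × Set V) (fun i => SU R a i.1 i.2.1 i.2.2)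
  exact ⟨C, fun Z f U => hC (Z, f, U)⟩

/-- symbols of a unary annotated form -/
theorem unary_syms {R : Rule T V F → Prop} {a : T} {τ : List F} {ann : List (Piece T V)}
    (hOk : ∀ p ∈ ann, Ok R τ p) (h : ∀ c ∈ Y ann, c = a) :
    (∀ s ∈ ann.map sym, s = Sum.inl a ∨ ∃ Z ∈ UN R a τ, s = Sum.inr Z) ∧
      ∀ p ∈ ann, mu R a τ (opt (sym p)) ≤ (yl p).length := by
  have key : ∀ p ∈ ann, ∀ c ∈ yl p, c = a := by
    intro p hp c hc
    exact h c (List.mem_flatMap.2 ⟨p, hp, hc⟩)
  constructor
  · intro s hs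
    obtain ⟨p, hp, rfl⟩ := List.mem_map.1 hs
    rcases p with t | ⟨Z, v⟩
    · left
      rw [sym_inl, key _ hp t (by simp)]
    · right
      refine ⟨Z, ⟨v.length, ?_⟩, rfl⟩
      have := hOk _ hp
      have e : v = List.replicate v.length a := eq_replicate_of (key _ hp)
      rw [← e]
      exact this
  · intro p hp
    rcases p with t | ⟨Z, v⟩
    · simp [mu]
    · have := hOk _ hp
      simp only [sym_inr, opt_inr, yl_inr]
      apply mu_le
      have e : v = List.replicate v.length a := eq_replicate_of (key _ hp)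
      rw [← e]
      exact this

/-- exchange of the unary part in front of the provider of the first `b` -/
theorem exch_provider [Fintype V] {R : Rule T V F → Prop} {a b : T} {C : ℕ}
    (hC : ∀ (Z : V) (of : Option F) (op oz : Option V) (U P : Set V),
      ∀ x ∈ SP R a b Z of op oz U P, ∃ y ∈ SP R a b Z of op oz U P, y ≤ x ∧ ∑ o, y o ≤ C)
    {lt : T → T → Prop} (hab : lt a b) {Z : V} {of : Option F} {τ : List F} {lft rgt : List T}
    (hl : ∀ c ∈ lft, c = a)
    (K : ∀ z, Lg R Z (of.toList ++ τ) z → Least lt (lft ++ z ++ rgt))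
    {b1 b2 : List (Piece T V)} {π : Piece T V}
    (hD : Dr R Z of.toList ((b1 ++ π :: b2).map sym)) (hOk : ∀ p ∈ b1 ++ π :: b2, Ok R τ p)
    (h1 : ∀ c ∈ Y b1, c = a) {i N : ℕ} {v' : List T} (hπ : yl π = List.replicate i a ++ b :: v')
    (hN : lft.length + (Y b1).length + i = N)
    (hM : List.replicate N a <:+: rgt ∨ List.replicate N a <:+: yl π ∨
      ∃ Z' v, Sum.inr (Z', v) ∈ b2 ∧ List.replicate N a <:+: v) :
    (∀ p ∈ b1, (yl p).length = mu R a τ (opt (sym p))) ∧ nn b1 ≤ C := by
  -- the label of the provider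
  have hsy : sym π = sy b (opt (sym π)) := by
    rcases π with t | ⟨Z', v⟩
    · simp only [yl_inl] at hπ
      rcases i with _ | i
      · simp only [List.replicate_zero, List.nil_append, List.cons.injEq] at hπ
        rw [sym_inl, hπ.1]; rfl
      · rw [List.replicate_succ, List.cons_append] at hπ
        have := (List.cons.inj hπ).2
        simp at this
    · rfl
  obtain ⟨hu1, hu2⟩ := unary_syms (fun p hp => hOk p (List.mem_append_left _ hp)) h1
  -- the distinguished hole
  obtain ⟨oz, pr, hoz, hpr, hinf⟩ : ∃ (oz : Option V) (pr : V → List T),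
      (∀ Z', oz = some Z' → Sum.inr Z' ∈ b2.map sym) ∧
      (∀ Z' ∈ PR R τ, Lg R Z' τ (pr Z')) ∧
      (List.replicate N a <:+: rgt ∨ List.replicate N a <:+: yl π ∨
        ∃ Z', oz = some Z' ∧ List.replicate N a <:+: pr Z') := by
    have hch : ∀ Z' : V, ∃ v : List T, Z' ∈ PR R τ → Lg R Z' τ v := by
      intro Z'
      by_cases h : Z' ∈ PR R τ
      · obtain ⟨v, hv⟩ := h; exact ⟨v, fun _ => hv⟩
      · exact ⟨[], fun h' => absurd h' h⟩
    choose pr0 hpr0 using hch
    rcases hM with h | h | ⟨Z', v, h, h'⟩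
    · exact ⟨none, pr0, by simp, hpr0, Or.inl h⟩
    · exact ⟨none, pr0, by simp, hpr0, Or.inr (Or.inl h)⟩
    · refine ⟨some Z', fun Z'' => if Z'' = Z' then v else pr0 Z'', ?_, ?_, ?_⟩
      · intro Z'' e
        simp only [Option.some.injEq] at e
        subst e
        exact List.mem_map.2 ⟨_, h, rfl⟩
      · intro Z'' hZ''
        by_cases e : Z'' = Z'
        · subst e
          simp only [if_true]
          exact hOk _ (List.mem_append_right _ (List.mem_cons_of_mem _ h))
        · simp only [if_neg e]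
          exact hpr0 _ hZ''
      · right; right
        exact ⟨Z', rfl, by simpa using h'⟩
  apply bound_ann (hC Z of (opt (sym π)) oz (UN R a τ) (PR R τ)) (mu R a τ) b1 hu2
  · refine ⟨b1.map sym, b2.map sym, rfl, ?_, hu1, ?_, hoz⟩
    · rw [← hsy]; simpa using hD
    · intro Z' hZ'
      obtain ⟨p, hp, e⟩ := List.mem_map.1 hZ'
      obtain ⟨v, rfl⟩ := sym_eq_inr e
      exact ⟨v, hOk _ (List.mem_append_right _ (List.mem_cons_of_mem _ hp))⟩
  · rintro y ⟨α1, α2, rfl, hDr, g1, g2, g3⟩
    obtain ⟨f1, f2, f3⟩ := fillU_spec (R := R) (τ := τ) g1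
    obtain ⟨f4, f5, f6⟩ := fillP_spec (R := R) (τ := τ) (α := α2) (pr := pr)
      (fun Z' hZ' => hpr Z' (g2 Z' hZ'))
    have hz := hDr.fill τ (α1.map (fillU R a τ) ++ π :: α2.map (fillP pr))
      (by rw [List.map_append, List.map_cons, f2, f5, hsy]; simp [← hsy]) (by
        intro p hp
        rcases List.mem_append.1 hp with hp | hp
        · exact f1 p hp
        · rcases List.mem_cons.1 hp with rfl | hp
          · exact hOk _ (by simp)
          · exact f4 p hp)
    have hz' := K _ hz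
    set n := (α1.map (fun s => mu R a τ (opt s))).sum with hn
    have hform : lft ++ Y (α1.map (fillU R a τ) ++ π :: α2.map (fillP pr)) ++ rgt =
        List.replicate (lft.length + n + i) a ++ b :: (v' ++ Y (α2.map (fillP pr)) ++ rgt) := by
      rw [Y_append, Y_cons, f3, hπ, eq_replicate_of hl]
      simp only [List.length_replicate, List.append_assoc, List.cons_append]
      rw [← List.append_assoc, ← List.append_assoc, List.replicate_append_replicate,
        List.replicate_append_replicate]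
    have hle := hz'.run hab hform (y := N) (by
      rcases hinf with h | h | ⟨Z', e, h⟩
      · exact h.trans List.infix_append_right
      · rw [Y_append, Y_cons]
        exact h.trans ⟨lft ++ Y (α1.map (fillU R a τ)), Y (α2.map (fillP pr)) ++ rgt,
          by simp [List.append_assoc]⟩
      · have h6 := f6 Z' (g3 Z' e)
        obtain ⟨s, t, e'⟩ := h.trans h6
        rw [Y_append, Y_cons, ← e']
        exact ⟨lft ++ Y (α1.map (fillU R a τ)) ++ yl π ++ s, t ++ rgt,
          by simp [List.append_assoc]⟩)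
    rw [← sum_map_vec, ← hn]
    omega

/-- unary refinement -/
theorem exch_unary [Fintype V] {R : Rule T V F → Prop} {a : T} {C : ℕ}
    (hC : ∀ (Z : V) (f : F) (U : Set V),
      ∀ x ∈ SU R a Z f U, ∃ y ∈ SU R a Z f U, y ≤ x ∧ ∑ o, y o ≤ C)
    {Z : V} {f : F} {τ : List F} {ann : List (Piece T V)}
    (hD : Dr R Z [f] (ann.map sym)) (hOk : ∀ p ∈ ann, Ok R τ p) (h1 : ∀ c ∈ Y ann, c = a)
    (hmin : (Y ann).length = mu R a (f :: τ) (some Z)) : nn ann ≤ C := by
  obtain ⟨hu1, hu2⟩ := unary_syms hOk h1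
  refine (bound_ann (hC Z f (UN R a τ)) (mu R a τ) ann hu2 ⟨_, rfl, hD, hu1⟩ ?_).2
  rintro y ⟨α, rfl, hDr, g1⟩
  obtain ⟨f1, f2, f3⟩ := fillU_spec (R := R) (τ := τ) g1
  have hz := hDr.fill τ _ f2 f1
  rw [f3] at hz
  rw [hmin, ← sum_map_vec]
  exact mu_le hz

end Pool.Agent.Idx60
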