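import Pool.Agent.Idx60.Defs

/-!
MODULE FG (MP_f95305_al): two facts on conjugacy in the free group of rank two.

(F1) a word in `conjNF lt` is not lexicographically greater than any of its rotations.
(F2) a positive word which is lexicographically least among its rotations is in `conjNF lt`.

For (F2): the homomorphism `FreeGroup (Fin 2) → ℤ` sending both generators to `1` gives
`|w| = φ(w) = φ(v) ≤ |v|` for positive `w` and `v` representing a conjugate of `w`, with equality iff
`v` is positive; two positive words that are conjugate in the free group are rotations of each other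
(induction on the length of the reduced word of the conjugating element: if its last letter does not
cancel, the product is reduced and contains an inverse letter).
-/

namespace Pool.Agent.Idx60

open FreeGroup

private theorem pos_reduced {w : List X} (hw : ∀ x ∈ w, x.2 = true) : IsReduced w := by
  unfold FreeGroup.IsReduced
  induction w with
  | nil => exact List.isChain_nil
  | cons x w ih =>
    cases w with
    | nil => exact List.isChain_singleton x
    | cons y w =>
      rw [List.isChain_cons_cons]
      refine ⟨fun _ => ?_, ih (fun z hz => hw z (by simp [hz]))⟩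
      rw [hw x (by simp), hw y (by simp)]

private theorem append_reduced_or {L w : List X} (hL : IsReduced L) (hw : ∀ x ∈ w, x.2 = true) :
    IsReduced (L ++ w) ∨
      ∃ (c : Fin 2) (L' w' : List X), L = L' ++ [(c, false)] ∧ w = (c, true) :: w' := by
  by_contra hcon
  push Not at hcon
  obtain ⟨h1, h2⟩ := hcon
  apply h1
  unfold FreeGroup.IsReduced
  rw [List.isChain_append]
  refine ⟨hL, pos_reduced hw, ?_⟩
  intro x hx y hy hxy
  by_contra hne
  have hxL : L = L.dropLast ++ [x] := (List.dropLast_append_getLast? x hx).symm
  have hyw : w = y :: w.tail := by
    cases w with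
    | nil => simp at hy
    | cons z w => simp at hy; simp [hy]
  have hy2 : y.2 = true := hw y (by rw [hyw]; simp)
  have hx2 : x.2 = false := by
    rw [hy2] at hne
    simpa using hne
  refine h2 x.1 L.dropLast w.tail ?_ ?_
  · rw [← hx2]; exact hxL
  · rw [hxy, ← hy2]; exact hyw

private theorem append_reduced_or' {L v : List X} (hL : IsReduced L) (hv : ∀ x ∈ v, x.2 = true) :
    IsReduced (v ++ L) ∨
      ∃ (c : Fin 2) (L' v' : List X), L = (c, false) :: L' ∧ v = v' ++ [(c, true)] := by
  by_contra hcon
  push Not at hcon
  obtain ⟨h1, h2⟩ := hcon
  apply h1
  unfold FreeGroup.IsReduced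
  rw [List.isChain_append]
  refine ⟨pos_reduced hv, hL, ?_⟩
  intro x hx y hy hxy
  by_contra hne
  have hxL : v = v.dropLast ++ [x] := (List.dropLast_append_getLast? x hx).symm
  have hyw : L = y :: L.tail := by
    cases L with
    | nil => simp at hy
    | cons z w => simp at hy; simp [hy]
  have hx2 : x.2 = true := hv x (by rw [hxL]; simp)
  have hy2 : y.2 = false := by
    rw [hx2] at hne
    cases h : y.2
    · rfl
    · rw [h] at hne; exact absurd rfl hne
  refine h2 y.1 L.tail v.dropLast ?_ ?_
  · rw [← hy2]; exact hyw
  · rw [← hxy, ← hx2]; exact hxL

private theorem mk_false_mul (c : Fin 2) (w : List X) :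
    FreeGroup.mk [(c, false)] * FreeGroup.mk ((c, true) :: w) = FreeGroup.mk w := by
  rw [FreeGroup.mul_mk]
  apply Quot.sound
  exact @FreeGroup.Red.Step.not _ [] w c false

private theorem eq_of_reduced {l₁ l₂ : List X} (h₁ : IsReduced l₁) (h₂ : IsReduced l₂)
    (h : FreeGroup.mk l₁ = FreeGroup.mk l₂) : l₁ = l₂ := by
  have := reduce.sound h
  rwa [h₁.reduce_eq, h₂.reduce_eq] at this

private theorem rot_of_conj (n : ℕ) : ∀ (L w v : List X), L.length ≤ n → IsReduced L →
    (∀ x ∈ w, x.2 = true) → (∀ x ∈ v, x.2 = true) →
    FreeGroup.mk L * FreeGroup.mk w = FreeGroup.mk v * FreeGroup.mk L → v ~r w := by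
  induction n with
  | zero =>
    intro L w v hn _ hw hv h
    have hL0 : L = [] := List.length_eq_zero_iff.mp (by omega)
    subst hL0
    rw [← FreeGroup.one_eq_mk, one_mul, mul_one] at h
    rw [eq_of_reduced (pos_reduced hw) (pos_reduced hv) h]
  | succ n ih =>
    intro L w v hn hL hw hv h
    rcases append_reduced_or hL hw with hLw | ⟨c, L', w', rfl, rfl⟩
    · rcases append_reduced_or' hL hv with hvL | ⟨c, L', v', rfl, rfl⟩
      · rw [FreeGroup.mul_mk, FreeGroup.mul_mk] at h
        have hE : v ++ L = L ++ w := (eq_of_reduced hLw hvL h).symm
        rcases List.append_eq_append_iff.mp hE with ⟨t, ht, hw'⟩ | ⟨t, ht, hw'⟩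
        · -- L = v ++ t, L = t ++ w
          by_cases hv0 : v = []
          · subst hv0
            have : w = [] := by
              have hl := congrArg List.length hE
              rw [List.nil_append, List.length_append] at hl
              exact List.length_eq_zero_iff.mp (by omega)
            rw [this]
          · have htl : t.length ≤ n := by
              have hl := congrArg List.length ht
              rw [List.length_append] at hl
              have : 0 < v.length := List.length_pos_iff.mpr hv0
              omega
            have htr : IsReduced t := by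
              unfold FreeGroup.IsReduced at hL ⊢
              rw [ht, List.isChain_append] at hL
              exact hL.2.1
            apply ih t w v htl htr hw hv
            rw [FreeGroup.mul_mk, FreeGroup.mul_mk, ← ht, ← hw']
        · -- v = L ++ t, w = t ++ L
          rw [ht, hw']
          exact List.isRotated_append
      · -- cancel on the left
        have hlen : L'.length ≤ n := by
          simp only [List.length_cons] at hn
          omega
        have hLr : IsReduced L' := by
          unfold FreeGroup.IsReduced at hL ⊢
          rw [← List.singleton_append, List.isChain_append] at hL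
          exact hL.2.1
        have hv' : ∀ x ∈ (c, true) :: v', x.2 = true := by
          intro x hx
          apply hv x
          simp only [List.mem_cons, List.mem_append, List.not_mem_nil, or_false] at hx ⊢
          exact hx.symm
        have key : FreeGroup.mk L' * FreeGroup.mk w =
            FreeGroup.mk ((c, true) :: v') * FreeGroup.mk L' := by
          have e1 : FreeGroup.mk ((c, false) :: L') =
              FreeGroup.mk [(c, false)] * FreeGroup.mk L' := by
            rw [FreeGroup.mul_mk]; rfl
          have e2 : FreeGroup.mk (v' ++ [(c, true)]) =
              FreeGroup.mk v' * FreeGroup.mk [(c, true)] := by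
            rw [FreeGroup.mul_mk]
          have e3 : FreeGroup.mk ((c, true) :: v') =
              FreeGroup.mk [(c, true)] * FreeGroup.mk v' := by
            rw [FreeGroup.mul_mk]; rfl
          have e4 : FreeGroup.mk [(c, false)] = (FreeGroup.mk [(c, true)])⁻¹ := by
            rw [FreeGroup.inv_mk]; rfl
          rw [e1, e2, e4] at h
          rw [e3]
          have h' : FreeGroup.mk L' * FreeGroup.mk w =
              FreeGroup.mk [(c, true)] *
                ((FreeGroup.mk [(c, true)])⁻¹ * FreeGroup.mk L' * FreeGroup.mk w) := by
            group
          rw [h', h]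
          group
        have hrot := ih L' w ((c, true) :: v') hlen hLr hw hv' key
        have hr : v' ++ [(c, true)] ~r (c, true) :: v' := by
          rw [← List.singleton_append]
          exact List.isRotated_append
        exact hr.trans hrot
    · -- cancel on the right
      have hlen : L'.length ≤ n := by
        simp only [List.length_append, List.length_singleton] at hn
        omega
      have hLr : IsReduced L' := by
        unfold FreeGroup.IsReduced at hL ⊢
        rw [List.isChain_append] at hL
        exact hL.1
      have hw' : ∀ x ∈ w' ++ [(c, true)], x.2 = true := by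
        intro x hx
        apply hw x
        simp only [List.mem_cons, List.mem_append, List.not_mem_nil, or_false] at hx ⊢
        exact hx.symm
      have key : FreeGroup.mk L' * FreeGroup.mk (w' ++ [(c, true)]) =
          FreeGroup.mk v * FreeGroup.mk L' := by
        have e1 : FreeGroup.mk (L' ++ [(c, false)]) =
            FreeGroup.mk L' * FreeGroup.mk [(c, false)] := by
          rw [FreeGroup.mul_mk]
        have e2 : FreeGroup.mk (w' ++ [(c, true)]) =
            FreeGroup.mk w' * FreeGroup.mk [(c, true)] := by
          rw [FreeGroup.mul_mk]
        have e3 : FreeGroup.mk ((c, true) :: w') =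
            FreeGroup.mk [(c, true)] * FreeGroup.mk w' := by
          rw [FreeGroup.mul_mk]; rfl
        have e4 : FreeGroup.mk [(c, false)] = (FreeGroup.mk [(c, true)])⁻¹ := by
          rw [FreeGroup.inv_mk]; rfl
        rw [e1, e3, e4] at h
        rw [e2]
        have h' : FreeGroup.mk v * FreeGroup.mk L' =
            FreeGroup.mk v * (FreeGroup.mk L' * (FreeGroup.mk [(c, true)])⁻¹) *
              FreeGroup.mk [(c, true)] := by
          group
        rw [h', ← h]
        group
      have hrot := ih L' (w' ++ [(c, true)]) v hlen hLr hw' hv key
      have hr : w' ++ [(c, true)] ~r (c, true) :: w' := by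
        rw [← List.singleton_append]
        exact List.isRotated_append
      exact hrot.trans hr

/-- the length homomorphism -/
private noncomputable def lenHom : FreeGroup (Fin 2) →* Multiplicative ℤ :=
  FreeGroup.lift (fun _ => Multiplicative.ofAdd 1)

private theorem lenHom_mk (w : List X) :
    (lenHom (FreeGroup.mk w)).toAdd = (w.map (fun x => cond x.2 (1 : ℤ) (-1))).sum := by
  unfold lenHom
  induction w with
  | nil => simp [← FreeGroup.one_eq_mk]
  | cons x w ih =>
    have : FreeGroup.mk (x :: w) = FreeGroup.mk [x] * FreeGroup.mk w := by
      rw [FreeGroup.mul_mk]; rfl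
    rw [this, _root_.map_mul, toAdd_mul, ih, List.map_cons, List.sum_cons]
    congr 1
    rcases x with ⟨c, b⟩
    cases b <;> simp [FreeGroup.lift_mk]

private theorem sum_pos {w : List X} (hw : ∀ x ∈ w, x.2 = true) :
    (w.map (fun x => cond x.2 (1 : ℤ) (-1))).sum = w.length := by
  induction w with
  | nil => simp
  | cons x w ih =>
    rw [List.map_cons, List.sum_cons, ih (fun z hz => hw z (by simp [hz])), hw x (by simp),
      List.length_cons]
    simp only [cond_true]
    push_cast
    ring

private theorem sum_le (v : List X) :
    (v.map (fun x => cond x.2 (1 : ℤ) (-1))).sum ≤ v.length := by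
  induction v with
  | nil => simp
  | cons x v ih =>
    rw [List.map_cons, List.sum_cons, List.length_cons]
    have : cond x.2 (1 : ℤ) (-1) ≤ 1 := by cases x.2 <;> simp
    push_cast
    linarith

private theorem pos_of_sum {v : List X}
    (h : (v.map (fun x => cond x.2 (1 : ℤ) (-1))).sum = v.length) : ∀ x ∈ v, x.2 = true := by
  induction v with
  | nil => simp
  | cons x v ih =>
    rw [List.map_cons, List.sum_cons, List.length_cons] at h
    have h1 := sum_le v
    push_cast at h
    have hx : x.2 = true := by
      by_contra hne
      have : x.2 = false := by simpa using hne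
      rw [this] at h
      simp only [cond_false] at h
      linarith
    rw [hx] at h
    simp only [cond_true] at h
    have h2 := ih (by linarith)
    intro y hy
    rcases List.mem_cons.mp hy with rfl | hy
    · exact hx
    · exact h2 y hy

theorem conjNF_rot {lt : X → X → Prop} (hlt : IsStrictTotalOrder X lt) {w : List X}
    (hw : w ∈ conjNF lt) (p q : List X) (h : w = p ++ q) : ¬ List.Lex lt (q ++ p) w := by
  obtain ⟨c, hc, hmin⟩ := hw
  intro hlex
  have hconj : ConjClasses.mk (FreeGroup.mk (q ++ p)) = c := by
    rw [← hc, h, ConjClasses.mk_eq_mk_iff_isConj, isConj_iff]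
    refine ⟨FreeGroup.mk p, ?_⟩
    rw [← FreeGroup.mul_mk, ← FreeGroup.mul_mk]
    group
  have hlen : w.length = (q ++ p).length := by
    rw [h, List.length_append, List.length_append, Nat.add_comm]
  rcases hmin _ hconj with he | hs
  · rw [he] at hlex
    exact (List.Lex.asymm lt).asymm _ _ hlex hlex
  · rw [List.shortlex_iff_lex hlen] at hs
    exact (List.Lex.asymm lt).asymm _ _ hlex hs

theorem mem_conjNF {lt : X → X → Prop} (hlt : IsStrictTotalOrder X lt) {w : List X}
    (hpos : ∀ x ∈ w, x.2 = true)
    (hmin : ∀ p q : List X, w = p ++ q → ¬ List.Lex lt (q ++ p) w) : w ∈ conjNF lt := by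
  refine ⟨_, rfl, ?_⟩
  intro v hv
  rw [ConjClasses.mk_eq_mk_iff_isConj, isConj_iff] at hv
  obtain ⟨g, hg⟩ := hv
  have hsum : (v.map (fun x => cond x.2 (1 : ℤ) (-1))).sum = w.length := by
    have hl : lenHom (FreeGroup.mk v) = lenHom (FreeGroup.mk w) := by
      rw [← hg, _root_.map_mul, _root_.map_mul, _root_.map_inv, mul_inv_cancel_comm]
    rw [← sum_pos hpos, ← lenHom_mk, ← lenHom_mk, hl]
  have hle := sum_le v
  rw [hsum] at hle
  have hle' : w.length ≤ v.length := by exact_mod_cast hle
  rcases Nat.lt_or_ge w.length v.length with hlt' | hge
  · exact Or.inr (List.Shortlex.of_length_lt hlt')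
  · have heq : w.length = v.length := le_antisymm hle' hge
    have hvpos : ∀ x ∈ v, x.2 = true := pos_of_sum (by rw [hsum, heq])
    have hrot : w ~r v := by
      apply rot_of_conj g.toWord.length g.toWord v w le_rfl isReduced_toWord hvpos hpos
      rw [FreeGroup.mk_toWord, ← hg]
      group
    obtain ⟨n, hn⟩ := hrot
    have hsplit : w = w.take (n % w.length) ++ w.drop (n % w.length) :=
      (List.take_append_drop _ _).symm
    have hv2 : v = w.drop (n % w.length) ++ w.take (n % w.length) := by
      rw [← hn, List.rotate_eq_drop_append_take_mod]
    have hno := hmin _ _ hsplit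
    rw [← hv2] at hno
    by_cases hwv : v = w
    · exact Or.inl hwv
    · right
      apply List.Shortlex.of_lex heq
      by_contra hcon
      exact hwv ((List.Lex.trichotomous lt).trichotomous _ _ hno hcon)

end Pool.Agent.Idx60
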