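import Pool.Agent.Idx60.Cut

/-!
The final cut, one level below the lowest valid cut.
-/

namespace Pool.Agent.Idx60

open Classical

variable {T V F : Type}

theorem final_cut [Fintype V] [Finite F] {R : Rule T V F → Prop} {s0 s1 : V} {bot : F} {a b : T}
    (hne : a ≠ b) {lt : T → T → Prop} (hlt : lt a b)
    (hb : ∀ A B, ¬ R (.pop A bot B)) (hs : ∀ ρ, R ρ → ρ.src = s0 → ρ = .push s0 s1 bot)
    (hrot : ∀ z, Lg R s0 [] z → Least lt z) :
    ∃ C : ℕ, ∀ (N : ℕ) (w : List T), Lg R s0 [] w → (∀ c ∈ w, c = a ∨ c = b) →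
      (∀ x1 x2 x3 x4 : List T, w = x1 ++ x2 ++ x3 ++ x4 →
        mw a b N <:+: x1 ∨ mw a b N <:+: x2 ∨ mw a b N <:+: x3 ∨ mw a b N <:+: x4) →
      (∃ w', w = List.replicate N a ++ b :: w') →
      ∃ (X0 : V) (τ : List F) (l0 r0 : List T) (ann1 : List (Piece T V)) (π : Piece T V)
        (ann2 : List (Piece T V)),
        Cx R s0 X0 τ l0 r0 ∧ (∀ c ∈ l0, c = a) ∧ Dr R X0 [] ((ann1 ++ π :: ann2).map sym) ∧
        (∀ p ∈ ann1 ++ π :: ann2, Ok R τ p) ∧ (∀ c ∈ Y ann1, c = a) ∧ b ∈ yl π ∧
        w = l0 ++ Y (ann1 ++ π :: ann2) ++ r0 ∧ ¬ mw a b N <:+: r0 ∧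
        (∀ p ∈ ann1 ++ π :: ann2, ¬ mw a b N <:+: yl p) ∧ nn ann1 ≤ C := by
  obtain ⟨C1, hC1⟩ := SP_bound (V := V) (F := F) R a b
  obtain ⟨C2, hC2⟩ := SU_bound (V := V) (F := F) R a
  refine ⟨C1 * (C2 + 1) + C1, ?_⟩
  rintro N w hw hab hQ ⟨w', hw'⟩
  -- minimal valid cut
  have hex : ∃ n, ∃ τ, τ.length = n ∧ VC R s0 a b N w τ := by
    obtain ⟨τ, hτ⟩ := exists_VC hne hw hab hQ
    exact ⟨τ.length, τ, rfl, hτ⟩
  obtain ⟨τ, hτn, hτ⟩ := Nat.find_spec hex
  have hmin : ∀ τ', VC R s0 a b N w τ' → τ.length ≤ τ'.length := by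
    intro τ' h'
    rw [hτn]
    exact Nat.find_min' hex ⟨τ', rfl, h'⟩
  rcases τ with _ | ⟨f, τ⟩
  · exact absurd hτ (VC_ne_nil hne hb hs)
  obtain ⟨X, l, r, b1, π, b2, g1, g2, g3, g4, g5, g6, g7, g8, g9, g10⟩ := hτ
  obtain ⟨X0, X1, l0, r0, aL, aR, hpush, hc, hu, oL, oR, el, er⟩ := g1.split [] f τ rfl
  -- the cut with root `X1`
  set a1 := aL ++ b1 with ha1
  set a2 := b2 ++ aR with ha2
  have hD1 : Dr R X1 [] ((a1 ++ π :: a2).map sym) := by
    have := hu.fill _ g3
    rw [ha1, ha2]
    simpa [List.append_assoc] using this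
  have hOk1 : ∀ p ∈ a1 ++ π :: a2, Ok R (f :: τ) p := by
    intro p hp
    rw [ha1, ha2] at hp
    simp only [List.mem_append, List.mem_cons] at hp
    have := g4 p
    simp only [List.mem_append, List.mem_cons] at this
    rcases hp with (h | h) | h | h | h
    · exact oL p h
    · exact this (Or.inl h)
    · exact this (Or.inr (Or.inl h))
    · exact this (Or.inr (Or.inr h))
    · exact oR p h
  have hl0 : ∀ c ∈ l0, c = a := fun c hc => g2 c (by rw [el]; exact List.mem_append_left _ hc)
  have hYa1 : ∀ c ∈ Y a1, c = a := by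
    intro c hc
    rw [ha1, Y_append, List.mem_append] at hc
    rcases hc with h | h
    · exact g2 c (by rw [el]; exact List.mem_append_right _ h)
    · exact g5 c h
  have hw1 : w = l0 ++ Y (a1 ++ π :: a2) ++ r0 := by
    rw [g7, el, er, ha1, ha2]
    simp [List.append_assoc]
  have hr0 : ¬ mw a b N <:+: r0 := by
    intro h
    exact g8 (by rw [er]; exact h.trans (List.suffix_append _ _).isInfix)
  have hM1 : mw a b N <:+: Y a2 ++ r0 := by
    rw [ha2, Y_append, List.append_assoc, ← er]; exact g9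
  obtain ⟨pM, hpM, hpM'⟩ := g10
  -- refinement
  have hchoose : ∀ p : Piece T V, ∃ ann, Ok R (f :: τ) p → Ref R f τ p ann := by
    intro p
    by_cases h : Ok R (f :: τ) p
    · obtain ⟨ann, h'⟩ := exists_ref p h
      exact ⟨ann, fun _ => h'⟩
    · exact ⟨[], fun h' => absurd h' h⟩
  choose g hg using hchoose
  have hg' : ∀ p ∈ a1 ++ π :: a2, Ref R f τ p (g p) := fun p hp => hg p (hOk1 p hp)
  have hgπ := hg' π (by simp)
  obtain ⟨β1, π', β2, eπ, hβ1, hπ'⟩ := first_piece (b := b) (g π) (by rw [hgπ.2.2.2]; exact g6)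
  have hflat : (a1 ++ π :: a2).flatMap g = (a1.flatMap g ++ β1) ++ π' :: (β2 ++ a2.flatMap g) := by
    rw [List.flatMap_append, List.flatMap_cons, eπ]
    simp [List.append_assoc]
  have hDf : Dr R X1 [f] (((a1 ++ π :: a2).flatMap g).map sym) := by
    refine hD1.comp [f] g _ rfl ?_ ?_
    · intro t ht; exact (hg' _ ht).1 t rfl
    · intro Z v hZ; exact (hg' _ hZ).2.1 Z v rfl
  have hOkf : ∀ p ∈ (a1 ++ π :: a2).flatMap g, Ok R τ p := by
    intro p hp
    obtain ⟨q, hq, hq'⟩ := List.mem_flatMap.1 hp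
    exact (hg' q hq).2.2.1 p hq'
  have hYf : Y ((a1 ++ π :: a2).flatMap g) = Y (a1 ++ π :: a2) :=
    Y_flatMap (fun p hp => (hg' p hp).2.2.2)
  have hYa1f : Y (a1.flatMap g) = Y a1 :=
    Y_flatMap (fun p hp => (hg' p (List.mem_append_left _ hp)).2.2.2)
  have hYa2f : Y (a2.flatMap g) = Y a2 :=
    Y_flatMap (fun p hp => (hg' p (by simp [hp])).2.2.2)
  -- words over {a, b}
  have hYπ : Y β1 ++ (yl π' ++ Y β2) = yl π := by
    rw [← hgπ.2.2.2, eπ]; simp
  have hsubπ : ∀ c ∈ yl π, c = a ∨ c = b := by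
    intro c hc
    apply hab
    rw [hw1]; simp [hc]
  have hβ1a : ∀ c ∈ Y β1, c = a := by
    intro c hc
    rcases hsubπ c (by rw [← hYπ]; simp [hc]) with h | h
    · exact h
    · exact absurd (h ▸ hc) hβ1
  have hab' : ∀ c ∈ yl π', c = a ∨ c = b := by
    intro c hc
    exact hsubπ c (by rw [← hYπ]; simp [hc])
  obtain ⟨i', v', hv'⟩ := exists_first hab' hπ'
  obtain ⟨i, v, hv⟩ := exists_first hsubπ g6
  -- the length of the first run
  have hrunπ : (Y β1).length + i' = i := by
    have : List.replicate i a ++ b :: v =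
        List.replicate ((Y β1).length + i') a ++ b :: (v' ++ Y β2) := by
      rw [← hv, ← hYπ, hv']
      conv_lhs => rw [eq_replicate_of hβ1a]
      simp only [List.append_assoc, List.cons_append]
      rw [← List.append_assoc, List.replicate_append_replicate]
    exact (run_inj hne this).1.symm
  have hrun : l0.length + (Y a1).length + i = N := by
    have : List.replicate N a ++ b :: w' =
        List.replicate (l0.length + (Y a1).length + i) a ++ b :: (v ++ Y a2 ++ r0) := by
      rw [← hw', hw1, Y_append, Y_cons, hv]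
      conv_lhs => rw [eq_replicate_of hl0, eq_replicate_of hYa1]
      simp only [List.append_assoc, List.cons_append]
      rw [← List.append_assoc, ← List.append_assoc, List.replicate_append_replicate,
        List.replicate_append_replicate]
    exact (run_inj hne this).1.symm
  have K1 : ∀ z, Lg R X1 (Option.toList (none : Option F) ++ (f :: τ)) z →
      Least lt (l0 ++ z ++ r0) := fun z hz => hrot _ (hc.fill z (Lg.push hpush hz))
  -- first exchange
  have hpMa : pM = π ∨ pM ∈ a2 := by
    rcases List.mem_cons.1 hpM with h | h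
    · exact Or.inl h
    · exact Or.inr (by rw [ha2]; exact List.mem_append_left _ h)
  have E1 := exch_provider (V := V) (of := none) (τ := f :: τ) hC1 hlt hl0 K1
    (b1 := a1) (b2 := a2) (π := π) hD1 hOk1 hYa1 hv hrun (by
      rcases hpMa with h | h
      · right; left; rw [← h]; exact (rep_infix_mw a b N).trans hpM'
      · right; right
        obtain ⟨Z', v', rfl⟩ := hole_of_mw hpM'
        exact ⟨Z', v', h, (rep_infix_mw a b N).trans hpM'⟩)
  -- second exchange
  have E2 : nn (a1.flatMap g) ≤ nn a1 * (C2 + 1) := by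
    apply nn_flatMap
    intro p hp
    have hpm : p ∈ a1 ++ π :: a2 := List.mem_append_left _ hp
    have hr := hg' p hpm
    split_ifs with h0
    · have := nn_le_length (g p)
      rw [hr.2.2.2, h0] at this
      simpa using this
    · rcases p with t | ⟨Z, v⟩
      · rw [hr.1 t rfl, nn_cons]; simp
      · refine (exch_unary (V := V) hC2 (hr.2.1 Z v rfl) hr.2.2.1 ?_ ?_).trans (Nat.le_succ _)
        · intro c hc
          rw [hr.2.2.2] at hc
          exact hYa1 c (List.mem_flatMap.2 ⟨_, hp, hc⟩)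
        · rw [hr.2.2.2]; exact E1.1 _ hp
  -- third exchange
  have E3 : nn β1 ≤ C1 := by
    rcases π with t | ⟨Z1, v1⟩
    · have h1 := hgπ.1 t rfl
      rw [h1] at eπ
      have : β1 = [] := by
        rcases β1 with _ | ⟨q, β1⟩
        · rfl
        · have := congrArg List.length eπ
          simp at this
      rw [this]; simp
    · have hDπ := hgπ.2.1 Z1 v1 rfl
      have hl1 : ∀ c ∈ l0 ++ Y a1, c = a := by
        intro c hc
        rcases List.mem_append.1 hc with h | h
        · exact hl0 c h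
        · exact hYa1 c h
      have K3 : ∀ z, Lg R Z1 ((some f).toList ++ τ) z → Least lt ((l0 ++ Y a1) ++ z ++ (Y a2 ++ r0)) := by
        intro z hz
        have h1 := hD1.fill (f :: τ) (a1 ++ Sum.inr (Z1, z) :: a2) (by simp) (by
          intro p hp
          simp only [List.mem_append, List.mem_cons] at hp
          rcases hp with h | h | h
          · exact hOk1 p (List.mem_append_left _ h)
          · rw [h]; exact hz
          · exact hOk1 p (by simp [h]))
        have h2 := K1 _ h1
        simpa [List.append_assoc] using h2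
      exact (exch_provider (V := V) (of := some f) (τ := τ) hC1 hlt hl1 K3
        (b1 := β1) (b2 := β2) (π := π') (by rw [← eπ]; exact hDπ)
        (by rw [← eπ]; exact hgπ.2.2.1) hβ1a hv' (by
          rw [List.length_append]; omega)
        (Or.inl ((rep_infix_mw a b N).trans hM1))).2
  -- the cut at level τ
  refine ⟨X0, τ, l0, r0, a1.flatMap g ++ β1, π', β2 ++ a2.flatMap g, hc, hl0, ?_, ?_, ?_, hπ', ?_,
    hr0, ?_, ?_⟩
  · rw [← hflat]; exact Dr.push hpush hDf
  · rw [← hflat]; exact hOkf
  · intro c hc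
    rw [Y_append, hYa1f, List.mem_append] at hc
    rcases hc with h | h
    · exact hYa1 c h
    · exact hβ1a c h
  · rw [← hflat, hYf]; exact hw1
  · -- minimality
    intro p hp hpm
    have hin : p ∈ π' :: (β2 ++ a2.flatMap g) := by
      rcases List.mem_append.1 hp with h | h
      · exfalso
        refine not_mw_of_all hne (fun c hc => ?_) hpm
        have : c ∈ Y (a1.flatMap g ++ β1) := List.mem_flatMap.2 ⟨p, h, hc⟩
        rw [Y_append, hYa1f, List.mem_append] at this
        rcases this with h | h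
        · exact hYa1 c h
        · exact hβ1a c h
      · exact h
    have hVC : VC R s0 a b N w τ := by
      refine ⟨X0, l0, r0, a1.flatMap g ++ β1, π', β2 ++ a2.flatMap g, hc, hl0, ?_, ?_, ?_, hπ', ?_,
        hr0, ?_, p, hin, hpm⟩
      · rw [← hflat]; exact Dr.push hpush hDf
      · rw [← hflat]; exact hOkf
      · intro c hc
        rw [Y_append, hYa1f, List.mem_append] at hc
        rcases hc with h | h
        · exact hYa1 c h
        · exact hβ1a c h
      · rw [← hflat, hYf]; exact hw1
      · rw [Y_append, hYa2f, List.append_assoc]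
        exact hM1.trans (List.suffix_append _ _).isInfix
    have := hmin τ hVC
    simp at this
  · rw [nn_append]
    have := Nat.mul_le_mul_right (C2 + 1) E1.2
    omega

end Pool.Agent.Idx60
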