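import Pool.Agent.Idx60.NFDefs

/-!
MODULE NF (MP_f95305_al): every indexed grammar (Aho) has a normal form grammar generating the same
language.

Construction: the nonterminals of the normal form grammar are a fresh start symbol and the lists of
items of a finite set `nts G` which contains all right-hand sides and is closed under tails, under
single items, and under shortening the flag word of a single item.  The stack `ζ` of the old grammar
corresponds to the stack `ζ.map some ++ [none]`.
-/

namespace Pool.Agent.Idx60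

open Relation

variable {T : Type}

/-! ### Big-step semantics of an indexed grammar -/

/-- `Gen G s w`: the sentential form `s` derives the terminal word `w`. -/
inductive Gen (G : IndexedGrammar T) : List (T ⊕ G.V × List G.F) → List T → Prop
  | nil : Gen G [] []
  | term {t : T} {s : List (T ⊕ G.V × List G.F)} {w : List T} :
      Gen G s w → Gen G (Sum.inl t :: s) (t :: w)
  | plain {A : G.V} {α : List (T ⊕ G.V × List G.F)} {ζ : List G.F}
      {s : List (T ⊕ G.V × List G.F)} {u v : List T} : (A, α) ∈ G.prods →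
      Gen G (α.map (attach ζ)) u → Gen G s v → Gen G (Sum.inr (A, ζ) :: s) (u ++ v)
  | index {A : G.V} {f : G.F} {α : List (T ⊕ G.V × List G.F)} {ζ : List G.F}
      {s : List (T ⊕ G.V × List G.F)} {u v : List T} : (A, α) ∈ G.index f →
      Gen G (α.map (attach ζ)) u → Gen G s v → Gen G (Sum.inr (A, f :: ζ) :: s) (u ++ v)

theorem Step.context {G : IndexedGrammar T} {s t : List (T ⊕ G.V × List G.F)} (h : Step G s t)
    (l r : List (T ⊕ G.V × List G.F)) : Step G (l ++ s ++ r) (l ++ t ++ r) := by
  cases h with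
  | @plain A α ζ l' r' hp =>
    have := Step.plain (ζ := ζ) (l := l ++ l') (r := r' ++ r) hp
    simpa [List.append_assoc] using this
  | @index A f α ζ l' r' hp =>
    have := Step.index (ζ := ζ) (l := l ++ l') (r := r' ++ r) hp
    simpa [List.append_assoc] using this

theorem steps_context {G : IndexedGrammar T} {s t : List (T ⊕ G.V × List G.F)}
    (h : ReflTransGen (Step G) s t) (l r : List (T ⊕ G.V × List G.F)) :
    ReflTransGen (Step G) (l ++ s ++ r) (l ++ t ++ r) := by
  induction h with
  | refl => exact ReflTransGen.refl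
  | tail _ h2 ih => exact ih.tail (h2.context l r)

theorem Gen.steps {G : IndexedGrammar T} {s : List (T ⊕ G.V × List G.F)} {w : List T}
    (h : Gen G s w) : ReflTransGen (Step G) s (w.map Sum.inl) := by
  induction h with
  | nil => exact ReflTransGen.refl
  | @term t s w _ ih =>
    have := steps_context ih [Sum.inl t] []
    simpa using this
  | @plain A α ζ s u v hp _ _ ih1 ih2 =>
    have h1 := Step.plain (ζ := ζ) (l := []) (r := s) hp
    have h2 := steps_context ih1 [] s
    have h3 := steps_context ih2 (u.map Sum.inl) []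
    have := (ReflTransGen.single h1).trans (h2.trans (by simpa using h3))
    simpa using this
  | @index A f α ζ s u v hp _ _ ih1 ih2 =>
    have h1 := Step.index (ζ := ζ) (l := []) (r := s) hp
    have h2 := steps_context ih1 [] s
    have h3 := steps_context ih2 (u.map Sum.inl) []
    have := (ReflTransGen.single h1).trans (h2.trans (by simpa using h3))
    simpa using this

theorem Gen.split {G : IndexedGrammar T} {s t : List (T ⊕ G.V × List G.F)} {w : List T}
    (h : Gen G (s ++ t) w) : ∃ u v, w = u ++ v ∧ Gen G s u ∧ Gen G t v := by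
  induction s generalizing w with
  | nil => exact ⟨[], w, rfl, .nil, h⟩
  | cons x s ih =>
    rw [List.cons_append] at h
    cases h with
    | term h =>
      obtain ⟨u, v, rfl, h1, h2⟩ := ih h
      exact ⟨_ :: u, v, rfl, h1.term, h2⟩
    | plain hp h1 h2 =>
      obtain ⟨u, v, rfl, h3, h4⟩ := ih h2
      exact ⟨_, v, (List.append_assoc _ _ _).symm, .plain hp h1 h3, h4⟩
    | index hp h1 h2 =>
      obtain ⟨u, v, rfl, h3, h4⟩ := ih h2
      exact ⟨_, v, (List.append_assoc _ _ _).symm, .index hp h1 h3, h4⟩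

theorem Gen.append {G : IndexedGrammar T} {s t : List (T ⊕ G.V × List G.F)} {u v : List T}
    (h1 : Gen G s u) (h2 : Gen G t v) : Gen G (s ++ t) (u ++ v) := by
  induction h1 with
  | nil => exact h2
  | term _ ih => exact ih.term
  | plain hp h _ _ ih => rw [List.append_assoc]; exact .plain hp h ih
  | index hp h _ _ ih => rw [List.append_assoc]; exact .index hp h ih

theorem Gen.of_step {G : IndexedGrammar T} {s t : List (T ⊕ G.V × List G.F)} {w : List T}
    (h : Step G s t) (hw : Gen G t w) : Gen G s w := by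
  cases h with
  | @plain A α ζ l r hp =>
    obtain ⟨u, v, rfl, h1, h2⟩ := hw.split
    obtain ⟨u, u', rfl, h1, h3⟩ := h1.split
    refine ((h1.append ?_).append h2)
    have := Gen.plain hp h3 (Gen.nil (G := G))
    simpa using this
  | @index A f α ζ l r hp =>
    obtain ⟨u, v, rfl, h1, h2⟩ := hw.split
    obtain ⟨u, u', rfl, h1, h3⟩ := h1.split
    refine ((h1.append ?_).append h2)
    have := Gen.index hp h3 (Gen.nil (G := G))
    simpa using this

theorem Gen.word {G : IndexedGrammar T} (w : List T) : Gen G (w.map Sum.inl) w := by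
  induction w with
  | nil => exact .nil
  | cons t w ih => exact ih.term

theorem gen_iff {G : IndexedGrammar T} {s : List (T ⊕ G.V × List G.F)} {w : List T} :
    Gen G s w ↔ ReflTransGen (Step G) s (w.map Sum.inl) := by
  refine ⟨Gen.steps, fun h => ?_⟩
  induction h using ReflTransGen.head_induction_on with
  | refl => exact Gen.word w
  | head h1 _ ih => exact Gen.of_step h1 ih

/-! ### The nonterminals of the normal form grammar -/

/-- the right-hand sides, and the list consisting of the start symbol -/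
def rhs (G : IndexedGrammar T) : Set (List (T ⊕ G.V × List G.F)) :=
  Prod.snd '' G.prods ∪ (⋃ f, Prod.snd '' G.index f) ∪ {[Sum.inr (G.start, [])]}

theorem rhs_finite (G : IndexedGrammar T) : (rhs G).Finite := by
  have := G.finF
  exact ((G.prods_finite.image _).union
    (Set.finite_iUnion fun f => (G.index_finite f).image _)).union (Set.finite_singleton _)

/-- the items with shortened flag word -/
def trunc {V F : Type} : T ⊕ V × List F → List (T ⊕ V × List F)
  | Sum.inl t => [Sum.inl t]
  | Sum.inr (A, η) => η.inits.map (fun ζ => Sum.inr (A, ζ))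

theorem self_mem_trunc {V F : Type} (x : T ⊕ V × List F) : x ∈ trunc x := by
  rcases x with t | ⟨A, η⟩
  · simp [trunc]
  · simp [trunc]

theorem trunc_shorten {V F : Type} {x : T ⊕ V × List F} {A : V} {η : List F} {f : F}
    (h : Sum.inr (A, η ++ [f]) ∈ trunc x) : Sum.inr (A, η) ∈ trunc x := by
  rcases x with t | ⟨B, ζ⟩
  · simp [trunc] at h
  · simp only [trunc, List.mem_map, List.mem_inits, Sum.inr.injEq, Prod.mk.injEq] at h ⊢
    obtain ⟨ζ', h1, rfl, rfl⟩ := h
    exact ⟨η, (List.prefix_append _ _).trans h1, rfl, rfl⟩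

/-- the lists obtained from a right-hand side -/
def closure {V F : Type} (ρ : List (T ⊕ V × List F)) : List (List (T ⊕ V × List F)) :=
  ρ.tails ++ ρ.flatMap (fun y => (trunc y).map (fun x => [x]))

/-- the nonterminals of the normal form grammar -/
def nts (G : IndexedGrammar T) : Set (List (T ⊕ G.V × List G.F)) :=
  {α | ∃ ρ ∈ rhs G, α ∈ closure ρ}

theorem nts_finite (G : IndexedGrammar T) : (nts G).Finite := by
  have : nts G = ⋃ ρ ∈ rhs G, {α | α ∈ closure ρ} := by
    ext α; simp [nts]
  rw [this]
  exact (rhs_finite G).biUnion fun ρ _ => List.finite_toSet _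

theorem mem_closure {V F : Type} {ρ α : List (T ⊕ V × List F)} :
    α ∈ closure ρ ↔ α <:+ ρ ∨ ∃ y ∈ ρ, ∃ x ∈ trunc y, α = [x] := by
  simp only [closure, List.mem_append, List.mem_tails, List.mem_flatMap, List.mem_map]
  constructor
  · rintro (h | ⟨y, hy, x, hx, rfl⟩)
    · exact .inl h
    · exact .inr ⟨y, hy, x, hx, rfl⟩
  · rintro (h | ⟨y, hy, x, hx, rfl⟩)
    · exact .inl h
    · exact .inr ⟨y, hy, x, hx, rfl⟩

theorem rhs_subset_nts {G : IndexedGrammar T} {ρ : List (T ⊕ G.V × List G.F)} (h : ρ ∈ rhs G) :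
    ρ ∈ nts G := ⟨ρ, h, mem_closure.2 (.inl (List.suffix_refl ρ))⟩

theorem start_mem_nts (G : IndexedGrammar T) : [Sum.inr (G.start, [])] ∈ nts G :=
  rhs_subset_nts (.inr rfl)

theorem nil_mem_nts (G : IndexedGrammar T) : [] ∈ nts G :=
  ⟨[Sum.inr (G.start, [])], .inr rfl, mem_closure.2 (.inl List.nil_suffix)⟩

theorem prods_mem_nts {G : IndexedGrammar T} {A : G.V} {α : List (T ⊕ G.V × List G.F)}
    (h : (A, α) ∈ G.prods) : α ∈ nts G :=
  rhs_subset_nts (.inl (.inl ⟨_, h, rfl⟩))

theorem index_mem_nts {G : IndexedGrammar T} {A : G.V} {f : G.F} {α : List (T ⊕ G.V × List G.F)}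
    (h : (A, α) ∈ G.index f) : α ∈ nts G :=
  rhs_subset_nts (.inl (.inr (Set.mem_iUnion.2 ⟨f, ⟨_, h, rfl⟩⟩)))

theorem tail_mem_nts {G : IndexedGrammar T} {x : T ⊕ G.V × List G.F}
    {β : List (T ⊕ G.V × List G.F)} (h : x :: β ∈ nts G) : β ∈ nts G := by
  obtain ⟨ρ, hρ, h⟩ := h
  rcases mem_closure.1 h with h | ⟨y, hy, x', hx', h⟩
  · exact ⟨ρ, hρ, mem_closure.2 (.inl ((List.suffix_cons _ _).trans h))⟩
  · obtain rfl : β = [] := by simpa using congrArg List.tail h
    exact nil_mem_nts G

theorem head_mem_nts {G : IndexedGrammar T} {x : T ⊕ G.V × List G.F}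
    {β : List (T ⊕ G.V × List G.F)} (h : x :: β ∈ nts G) : [x] ∈ nts G := by
  obtain ⟨ρ, hρ, h⟩ := h
  rcases mem_closure.1 h with h | ⟨y, hy, x', hx', h⟩
  · have hx : x ∈ ρ := h.subset (List.mem_cons_self)
    exact ⟨ρ, hρ, mem_closure.2 (.inr ⟨x, hx, x, self_mem_trunc x, rfl⟩)⟩
  · obtain ⟨rfl, -⟩ : x = x' ∧ β = [] := by simpa using h
    exact ⟨ρ, hρ, mem_closure.2 (.inr ⟨y, hy, x, hx', rfl⟩)⟩

theorem shorten_mem_nts {G : IndexedGrammar T} {A : G.V} {η : List G.F} {f : G.F}
    (h : [Sum.inr (A, η ++ [f])] ∈ nts G) : [Sum.inr (A, η)] ∈ nts G := by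
  obtain ⟨ρ, hρ, h⟩ := h
  rcases mem_closure.1 h with h | ⟨y, hy, x', hx', h⟩
  · have hx : Sum.inr (A, η ++ [f]) ∈ ρ := h.subset (List.mem_cons_self)
    exact ⟨ρ, hρ, mem_closure.2 (.inr ⟨_, hx, _, trunc_shorten (self_mem_trunc _), rfl⟩)⟩
  · obtain rfl : Sum.inr (A, η ++ [f]) = x' := by simpa using h
    exact ⟨ρ, hρ, mem_closure.2 (.inr ⟨y, hy, _, trunc_shorten hx', rfl⟩)⟩

/-! ### The normal form grammar -/

/-- the rules of the normal form grammar -/
inductive NR (G : IndexedGrammar T) : Rule T (Option (nts G)) (Option G.F) → Prop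
  | start : NR G (.push none (some ⟨_, start_mem_nts G⟩) none)
  | eps (h : [] ∈ nts G) : NR G (.eps (some ⟨[], h⟩))
  | term (t : T) (h : [Sum.inl t] ∈ nts G) : NR G (.term (some ⟨[Sum.inl t], h⟩) t)
  | cons (x : T ⊕ G.V × List G.F) (β : List (T ⊕ G.V × List G.F)) (h : x :: β ∈ nts G)
      (h1 : [x] ∈ nts G) (h2 : β ∈ nts G) :
      NR G (.bin (some ⟨x :: β, h⟩) (some ⟨[x], h1⟩) (some ⟨β, h2⟩))
  | unit (A : G.V) (α : List (T ⊕ G.V × List G.F)) (h : [Sum.inr (A, [])] ∈ nts G)
      (h1 : α ∈ nts G) (h2 : [] ∈ nts G) (hp : (A, α) ∈ G.prods) :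
      NR G (.bin (some ⟨[Sum.inr (A, [])], h⟩) (some ⟨α, h1⟩) (some ⟨[], h2⟩))
  | push (A : G.V) (η : List G.F) (f : G.F) (h : [Sum.inr (A, η ++ [f])] ∈ nts G)
      (h1 : [Sum.inr (A, η)] ∈ nts G) :
      NR G (.push (some ⟨[Sum.inr (A, η ++ [f])], h⟩) (some ⟨[Sum.inr (A, η)], h1⟩) (some f))
  | pop (A : G.V) (f : G.F) (α : List (T ⊕ G.V × List G.F)) (h : [Sum.inr (A, [])] ∈ nts G)
      (h1 : α ∈ nts G) (hp : (A, α) ∈ G.index f) :
      NR G (.pop (some ⟨[Sum.inr (A, [])], h⟩) (some f) (some ⟨α, h1⟩))

theorem gen_of_lg {G : IndexedGrammar T} {A : Option (nts G)} {σ : List (Option G.F)} {w : List T}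
    (h : Lg (NR G) A σ w) : ∀ (α : List (T ⊕ G.V × List G.F)) (hα : α ∈ nts G),
      A = some ⟨α, hα⟩ → ∀ ζ : List G.F, σ = ζ.map some ++ [none] →
        Gen G (α.map (attach ζ)) w := by
  induction h with
  | @eps A σ hr =>
    rintro α hα rfl ζ rfl
    cases hr with
    | eps h => exact .nil
  | @term A σ t hr =>
    rintro α hα rfl ζ rfl
    cases hr with
    | term t h => exact .term .nil
  | @bin A B C σ u v hr _ _ ih1 ih2 =>
    rintro α hα rfl ζ rfl
    cases hr with
    | cons x β h h1 h2 =>
      have e1 := ih1 _ h1 rfl ζ rfl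
      have e2 := ih2 _ h2 rfl ζ rfl
      simpa using e1.append e2
    | unit A α h h1 h2 hp =>
      have e1 := ih1 _ h1 rfl ζ rfl
      have e2 := ih2 _ h2 rfl ζ rfl
      exact .plain hp e1 e2
  | @push A B f σ u hr _ ih =>
    rintro α hα rfl ζ rfl
    cases hr with
    | push A η f h h1 =>
      have e1 := ih _ h1 rfl (f :: ζ) rfl
      simpa [attach] using e1
  | @pop A B f σ u hr _ ih =>
    rintro α hα rfl ζ hσ
    cases hr with
    | pop A f α h h1 hp =>
      cases ζ with
      | nil => simp at hσ
      | cons g ζ =>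
        simp only [List.map_cons, List.cons_append, List.cons.injEq, Option.some.injEq] at hσ
        obtain ⟨rfl, rfl⟩ := hσ
        have e1 := ih _ h1 rfl ζ rfl
        have := Gen.index hp e1 (Gen.nil (G := G))
        simpa [attach] using this

theorem lg_push {G : IndexedGrammar T} {A : G.V} {w : List T} (η : List G.F) :
    ∀ (ζ : List G.F) (h : [Sum.inr (A, η)] ∈ nts G),
      (∀ h0 : [Sum.inr (A, [])] ∈ nts G,
        Lg (NR G) (some ⟨_, h0⟩) ((η ++ ζ).map some ++ [none]) w) →
      Lg (NR G) (some ⟨_, h⟩) (ζ.map some ++ [none]) w := by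
  induction η using List.reverseRecOn with
  | nil => intro ζ h hw; exact hw h
  | append_singleton η f ih =>
    intro ζ h hw
    refine .push (.push A η f h (shorten_mem_nts h)) ?_
    have := ih (f :: ζ) (shorten_mem_nts h) (by simpa using hw)
    simpa using this

theorem lg_of_gen {G : IndexedGrammar T} {s : List (T ⊕ G.V × List G.F)} {w : List T}
    (h : Gen G s w) : ∀ (α : List (T ⊕ G.V × List G.F)) (hα : α ∈ nts G) (ζ : List G.F),
      s = α.map (attach ζ) → Lg (NR G) (some ⟨α, hα⟩) (ζ.map some ++ [none]) w := by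
  induction h with
  | nil =>
    intro α hα ζ h
    obtain rfl : α = [] := by simpa using h.symm
    exact .eps (.eps hα)
  | @term t s w _ ih =>
    intro α hα ζ h
    cases α with
    | nil => simp at h
    | cons x β =>
      simp only [List.map_cons, List.cons.injEq] at h
      obtain ⟨h1, rfl⟩ := h
      rcases x with t' | ⟨A, η⟩
      · simp only [attach, Sum.inl.injEq] at h1
        subst h1
        exact .bin (.cons _ _ hα (head_mem_nts hα) (tail_mem_nts hα)) (.term (.term _ _))
          (ih _ _ _ rfl)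
      · simp [attach] at h1
  | @plain A γ ζ0 s u v hp _ _ ih1 ih2 =>
    intro α hα ζ h
    cases α with
    | nil => simp at h
    | cons x β =>
      simp only [List.map_cons, List.cons.injEq] at h
      obtain ⟨h1, rfl⟩ := h
      rcases x with t' | ⟨A', η⟩
      · simp [attach] at h1
      · simp only [attach, Sum.inr.injEq, Prod.mk.injEq] at h1
        obtain ⟨rfl, rfl⟩ := h1
        refine .bin (.cons _ _ hα (head_mem_nts hα) (tail_mem_nts hα)) ?_ (ih2 _ _ _ rfl)
        refine lg_push η ζ (head_mem_nts hα) fun h0 => ?_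
        have := Lg.bin (NR.unit A γ h0 (prods_mem_nts hp) (nil_mem_nts G) hp)
          (ih1 _ (prods_mem_nts hp) _ rfl)
          (Lg.eps (σ := (η ++ ζ).map some ++ [none]) (NR.eps (nil_mem_nts G)))
        simpa using this
  | @index A f γ ζ0 s u v hp _ _ ih1 ih2 =>
    intro α hα ζ h
    cases α with
    | nil => simp at h
    | cons x β =>
      simp only [List.map_cons, List.cons.injEq] at h
      obtain ⟨h1, rfl⟩ := h
      rcases x with t' | ⟨A', η⟩
      · simp [attach] at h1
      · simp only [attach, Sum.inr.injEq, Prod.mk.injEq] at h1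
        obtain ⟨rfl, h1⟩ := h1
        refine .bin (.cons _ _ hα (head_mem_nts hα) (tail_mem_nts hα)) ?_ (ih2 _ _ _ rfl)
        refine lg_push η ζ (head_mem_nts hα) fun h0 => ?_
        rw [← h1]
        exact Lg.pop (NR.pop A f γ h0 (index_mem_nts hp) hp) (ih1 _ (index_mem_nts hp) _ rfl)

theorem exists_nf {T : Type} (G : IndexedGrammar T) : ∃ H : NFGrammar T, H.language = G.language := by
  have := G.finF
  have : Finite (nts G) := nts_finite G
  refine ⟨{ V := Option (nts G), F := Option G.F, finV := inferInstance, finF := inferInstance,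
            R := NR G, s0 := none, s1 := some ⟨_, start_mem_nts G⟩, bot := none,
            start_push := ?_, no_pop := ?_ }, ?_⟩
  · intro ρ hρ hs
    cases hρ with
    | start => rfl
    | _ => simp [Rule.src] at hs
  · intro A B h
    cases h
  · ext w
    change Lg (NR G) none [] w ↔ ReflTransGen (Step G) [Sum.inr (G.start, [])] (w.map Sum.inl)
    rw [← gen_iff]
    constructor
    · intro h
      cases h with
      | eps hr => cases hr
      | term hr => cases hr
      | bin hr => cases hr
      | push hr h =>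
        cases hr
        have := gen_of_lg h _ (start_mem_nts G) rfl [] rfl
        simpa [attach] using this
    · intro h
      exact .push .start (lg_of_gen h _ (start_mem_nts G) [] (by simp [attach]))

end Pool.Agent.Idx60
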