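import Pool.Agent.Idx60.Core
import Pool.Agent.Idx60.NF
import Pool.Agent.Idx60.FG

namespace Pool.Agent.Idx60

theorem not_indexed (lt : X → X → Prop) (hlt : IsStrictTotalOrder X lt) :
    ¬ IsIndexed (conjNF lt) := by
  rintro ⟨G, hG⟩
  obtain ⟨H, hH⟩ := exists_nf G
  have hirr : ∀ x, ¬ lt x x := fun x => hlt.irrefl x
  have htr : ∀ x y z, lt x y → lt y z → lt x z := fun x y z => hlt.trans x y z
  have key : ∀ a b : X, a.2 = true → b.2 = true → lt a b → False := by
    intro a b ha hb hab
    refine core H lt hirr a b hab ?_ ?_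
    · intro z hz p q h
      rw [hH, hG] at hz
      exact conjNF_rot hlt hz p q h
    · intro k N hkN
      rw [hH, hG]
      refine mem_conjNF hlt ?_ (fun p q h => uw_least lt hirr htr a b hab k N hkN p q h)
      intro x hx
      have : x = a ∨ x = b := by
        simp only [uw, mw, List.mem_append, List.mem_flatMap, List.mem_cons, List.mem_replicate,
          List.mem_singleton] at hx
        tauto
      rcases this with rfl | rfl
      · exact ha
      · exact hb
  have hne : ((0 : Fin 2), true) ≠ ((1 : Fin 2), true) := by decide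
  rcases hlt.trichotomous ((0 : Fin 2), true) ((1 : Fin 2), true) with h
  by_cases h1 : lt ((0 : Fin 2), true) ((1 : Fin 2), true)
  · exact key _ _ rfl rfl h1
  by_cases h2 : lt ((1 : Fin 2), true) ((0 : Fin 2), true)
  · exact key _ _ rfl rfl h2
  · exact hne (h h1 h2)

end Pool.Agent.Idx60
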