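import Pool.Agent.Idx60.Defs

/-!
Normal form grammars (used in the proof only).
-/

namespace Pool.Agent.Idx60

/-! ### Normal form grammars -/

/-- Rules of a grammar in normal form. -/
inductive Rule (T V F : Type) : Type
  | eps (A : V)
  | term (A : V) (t : T)
  | bin (A B C : V)
  | push (A B : V) (f : F)
  | pop (A : V) (f : F) (B : V)

/-- the nonterminal on the left-hand side -/
def Rule.src {T V F : Type} : Rule T V F → V
  | .eps A => A
  | .term A _ => A
  | .bin A _ _ => A
  | .push A _ _ => A
  | .pop A _ _ => A

/-- `Lg R A σ w`: the nonterminal `A` with stack `σ` derives the terminal word `w`. -/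
inductive Lg {T V F : Type} (R : Rule T V F → Prop) : V → List F → List T → Prop
  | eps {A : V} {σ : List F} : R (.eps A) → Lg R A σ []
  | term {A : V} {σ : List F} {t : T} : R (.term A t) → Lg R A σ [t]
  | bin {A B C : V} {σ : List F} {u v : List T} :
      R (.bin A B C) → Lg R B σ u → Lg R C σ v → Lg R A σ (u ++ v)
  | push {A B : V} {f : F} {σ : List F} {u : List T} :
      R (.push A B f) → Lg R B (f :: σ) u → Lg R A σ u
  | pop {A B : V} {f : F} {σ : List F} {u : List T} :
      R (.pop A f B) → Lg R B σ u → Lg R A (f :: σ) u

/-- Data of a normal form grammar generating a language: a fresh start symbol which first pushes a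
bottom symbol that is never popped. -/
structure NFGrammar (T : Type) where
  V : Type
  F : Type
  finV : Finite V
  finF : Finite F
  R : Rule T V F → Prop
  s0 : V
  s1 : V
  bot : F
  start_push : ∀ ρ, R ρ → ρ.src = s0 → ρ = .push s0 s1 bot
  no_pop : ∀ A B, ¬ R (.pop A bot B)

/-- the language of a normal form grammar -/
def NFGrammar.language {T : Type} (G : NFGrammar T) : Set (List T) := {w | Lg G.R G.s0 [] w}

end Pool.Agent.Idx60
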