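import Pool.Agent.Idx60.Final

/-!
Exchange with finitely many representatives: unary segments have boundedly many nonempty pieces.
-/

namespace Pool.Agent.Idx60

open Classical

variable {T V F : Type}

/-- kinds of words: empty, nonempty unary, with a first letter different from `a` equal to `b` -/
def HasKind (a b : T) (k : Fin 3) (v : List T) : Prop :=
  if k = 0 then v = [] else if k = 1 then v ≠ [] ∧ ∀ c ∈ v, c = a
  else ∃ i v', v = List.replicate i a ++ b :: v'

/-- the kind of a word -/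
noncomputable def kindOf (a : T) (v : List T) : Fin 3 :=
  if v = [] then 0 else if ∀ c ∈ v, c = a then 1 else 2

theorem hasKind_kindOf {a b : T} {v : List T} (h : ∀ c ∈ v, c = a ∨ c = b) :
    HasKind a b (kindOf a v) v := by
  unfold kindOf
  split_ifs with h1 h2
  · simp [HasKind, h1]
  · simp only [HasKind]
    rw [if_neg (by decide), if_pos trivial]
    exact ⟨h1, h2⟩
  · simp only [HasKind]
    rw [if_neg (by decide), if_neg (by decide)]
    apply exists_first h
    by_contra hb
    apply h2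
    intro c hc
    rcases h c hc with h' | h'
    · exact h'
    · exact absurd (h' ▸ hc) hb

theorem rep_bound [Fintype V] (R : Rule T V F → Prop) (s0 : V) (a b : T) : ∃ C : ℕ,
    ∀ (X0 : V) (U : Set (V × Fin 3)) (τ : List F) (l r : List T) (g : V × Fin 3 → List T),
      Cx R s0 X0 τ l r → (∀ c ∈ l, c = a) →
      (∀ q ∈ U, Lg R q.1 τ (g q) ∧ HasKind a b q.2 (g q)) →
      ∃ (τ' : List F) (l' r' : List T) (g' : V × Fin 3 → List T),
        Cx R s0 X0 τ' l' r' ∧ (∀ c ∈ l', c = a) ∧
        (∀ q ∈ U, Lg R q.1 τ' (g' q) ∧ HasKind a b q.2 (g' q) ∧ (g' q).length ≤ C) ∧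
        l'.length ≤ C := by
  have key : ∀ i : V × Set (V × Fin 3), ∃ C : ℕ,
      (∃ (τ : List F) (l r : List T) (g : V × Fin 3 → List T),
        Cx R s0 i.1 τ l r ∧ (∀ c ∈ l, c = a) ∧
        (∀ q ∈ i.2, Lg R q.1 τ (g q) ∧ HasKind a b q.2 (g q))) →
      ∃ (τ' : List F) (l' r' : List T) (g' : V × Fin 3 → List T),
        Cx R s0 i.1 τ' l' r' ∧ (∀ c ∈ l', c = a) ∧
        (∀ q ∈ i.2, Lg R q.1 τ' (g' q) ∧ HasKind a b q.2 (g' q) ∧ (g' q).length ≤ C) ∧
        l'.length ≤ C := by
    intro i
    by_cases h : ∃ (τ : List F) (l r : List T) (g : V × Fin 3 → List T),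
        Cx R s0 i.1 τ l r ∧ (∀ c ∈ l, c = a) ∧
        (∀ q ∈ i.2, Lg R q.1 τ (g q) ∧ HasKind a b q.2 (g q))
    · obtain ⟨τ, l, r, g, h1, h2, h3⟩ := h
      refine ⟨l.length + ∑ q : V × Fin 3, (g q).length, fun _ =>
        ⟨τ, l, r, g, h1, h2, fun q hq => ⟨(h3 q hq).1, (h3 q hq).2, ?_⟩, Nat.le_add_right _ _⟩⟩
      have : (g q).length ≤ ∑ q : V × Fin 3, (g q).length :=
        Finset.single_le_sum (f := fun q : V × Fin 3 => (g q).length)
          (fun _ _ => Nat.zero_le _) (Finset.mem_univ q)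
      omega
    · exact ⟨0, fun h' => absurd h' h⟩
  choose C hC using key
  obtain ⟨D, hD⟩ := (Set.finite_range C).bddAbove
  refine ⟨D, fun X0 U τ l r g h1 h2 h3 => ?_⟩
  obtain ⟨τ', l', r', g', k1, k2, k3, k4⟩ := hC (X0, U) ⟨τ, l, r, g, h1, h2, h3⟩
  have hle : C (X0, U) ≤ D := hD ⟨_, rfl⟩
  exact ⟨τ', l', r', g', k1, k2, fun q hq => ⟨(k3 q hq).1, (k3 q hq).2.1, (k3 q hq).2.2.trans hle⟩,
    k4.trans hle⟩

theorem seg_bound [Fintype V] {R : Rule T V F → Prop} {s0 : V} {a b : T}
    {lt : T → T → Prop} (hlt : lt a b) (hrot : ∀ z, Lg R s0 [] z → Least lt z) (C : ℕ) :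
    ∃ C4 : ℕ, ∀ (X0 : V) (τ : List F) (l0 r0 : List T) (ann1 : List (Piece T V)) (π : Piece T V)
        (ann2 : List (Piece T V)),
        Cx R s0 X0 τ l0 r0 → (∀ c ∈ l0, c = a) → Dr R X0 [] ((ann1 ++ π :: ann2).map sym) →
        (∀ p ∈ ann1 ++ π :: ann2, Ok R τ p) → (∀ c ∈ Y ann1, c = a) → b ∈ yl π →
        (∀ p ∈ ann1 ++ π :: ann2, ∀ c ∈ yl p, c = a ∨ c = b) → a ≠ b → nn ann1 ≤ C →
        ∀ s1 seg s2 : List (Piece T V), ann1 ++ π :: ann2 = s1 ++ seg ++ s2 →
          (∀ c ∈ Y seg, c = a) → nn seg ≤ C4 := by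
  obtain ⟨D, hD⟩ := rep_bound R s0 a b
  refine ⟨D + C * (D + 1) + (D + 1), ?_⟩
  intro X0 τ l0 r0 ann1 π ann2 hc hl0 hDr hOk hY1 hπ hab hne hC s1 seg s2 hseg hsega
  set ann := ann1 ++ π :: ann2 with hann
  set U : Set (V × Fin 3) := {q | ∃ v, Sum.inr (q.1, v) ∈ ann ∧ kindOf a v = q.2} with hU
  have hgex : ∀ q : V × Fin 3, ∃ v, q ∈ U → (Sum.inr (q.1, v) ∈ ann ∧ kindOf a v = q.2) := by
    intro q
    by_cases h : q ∈ U
    · obtain ⟨v, hv⟩ := h; exact ⟨v, fun _ => hv⟩
    · exact ⟨[], fun h' => absurd h' h⟩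
  choose g hg using hgex
  obtain ⟨τ', l', r', g', k1, k2, k3, k4⟩ := hD X0 U τ l0 r0 g hc hl0 (by
    intro q hq
    obtain ⟨h1, h2⟩ := hg q hq
    refine ⟨hOk _ h1, ?_⟩
    rw [← h2]
    exact hasKind_kindOf (fun c hc => hab _ h1 c hc))
  set rr : Piece T V → Piece T V := fun p => match p with
    | Sum.inl t => Sum.inl t
    | Sum.inr (Z, v) => Sum.inr (Z, g' (Z, kindOf a v)) with hrr
  have hsym : ∀ p : Piece T V, sym (rr p) = sym p := by
    intro p; rcases p with t | ⟨Z, v⟩ <;> rfl
  have hmemU : ∀ Z v, Sum.inr (Z, v) ∈ ann → (Z, kindOf a v) ∈ U := fun Z v h => ⟨v, h, rfl⟩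
  have P1 : ∀ p ∈ ann, yl p = [] → yl (rr p) = [] := by
    intro p hp h
    rcases p with t | ⟨Z, v⟩
    · simp at h
    · have := (k3 _ (hmemU Z v hp)).2.1
      simp only [yl_inr] at h
      subst h
      simpa [hrr, HasKind, kindOf] using this
  have P2 : ∀ p ∈ ann, yl p ≠ [] → yl (rr p) ≠ [] := by
    intro p hp h
    rcases p with t | ⟨Z, v⟩
    · simp [hrr]
    · have := (k3 _ (hmemU Z v hp)).2.1
      simp only [yl_inr] at h
      simp only [hrr, yl_inr]
      unfold HasKind kindOf at this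
      simp only [if_neg h] at this
      by_cases h2 : ∀ c ∈ v, c = a
      · simp only [if_pos h2] at this
        rw [if_neg (by decide), if_pos trivial] at this
        unfold kindOf; rw [if_neg h, if_pos h2]; exact this.1
      · simp only [if_neg h2] at this
        rw [if_neg (by decide), if_neg (by decide)] at this
        unfold kindOf; rw [if_neg h, if_neg h2]
        obtain ⟨i, v', e⟩ := this
        rw [e]; simp
  have P3 : ∀ p ∈ ann, (∀ c ∈ yl p, c = a) → ∀ c ∈ yl (rr p), c = a := by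
    intro p hp h
    rcases p with t | ⟨Z, v⟩
    · exact h
    · by_cases h0 : v = []
      · have := P1 _ hp h0
        rw [this]; simp
      · have := (k3 _ (hmemU Z v hp)).2.1
        simp only [yl_inr] at h
        simp only [hrr, yl_inr]
        unfold HasKind kindOf at this
        simp only [if_neg h0, if_pos h] at this
        rw [if_neg (by decide), if_pos trivial] at this
        unfold kindOf; rw [if_neg h0, if_pos h]; exact this.2
  have P4 : ∀ p ∈ ann, b ∈ yl p → ∃ i v', yl (rr p) = List.replicate i a ++ b :: v' := by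
    intro p hp h
    rcases p with t | ⟨Z, v⟩
    · simp only [yl_inl, List.mem_singleton] at h
      exact ⟨0, [], by simp [hrr, h]⟩
    · have := (k3 _ (hmemU Z v hp)).2.1
      simp only [yl_inr] at h
      simp only [hrr, yl_inr]
      have h0 : v ≠ [] := by intro h'; rw [h'] at h; simp at h
      have h2 : ¬ ∀ c ∈ v, c = a := fun h' => hne (h' b h).symm
      unfold HasKind kindOf at this
      simp only [if_neg h0, if_neg h2] at this
      rw [if_neg (by decide), if_neg (by decide)] at this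
      unfold kindOf; rw [if_neg h0, if_neg h2]; exact this
  have P5 : ∀ p ∈ ann, (yl (rr p)).length ≤ D + 1 := by
    intro p hp
    rcases p with t | ⟨Z, v⟩
    · simp [hrr]
    · have := (k3 _ (hmemU Z v hp)).2.2
      simp only [hrr, yl_inr]
      omega
  have hmapsym : ∀ l : List (Piece T V), (l.map rr).map sym = l.map sym := by
    intro l
    rw [List.map_map]
    exact List.map_congr_left (fun p _ => hsym p)
  have hz : Lg R s0 [] (l' ++ Y (ann.map rr) ++ r') := by
    apply k1.fill
    have := hDr.fill τ' (ann.map rr) (hmapsym _) (by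
      intro p hp
      obtain ⟨q, hq, rfl⟩ := List.mem_map.1 hp
      rcases q with t | ⟨Z, v⟩
      · trivial
      · exact (k3 _ (hmemU Z v hq)).1)
    simpa using this
  have hL := hrot _ hz
  obtain ⟨i, v', hv'⟩ := P4 π (by rw [hann]; simp) hπ
  have hY1a : ∀ c ∈ Y (ann1.map rr), c = a := by
    intro c hc
    obtain ⟨p, hp, hc⟩ := List.mem_flatMap.1 hc
    obtain ⟨q, hq, rfl⟩ := List.mem_map.1 hp
    exact P3 q (by rw [hann]; simp [hq])
      (fun c' hc' => hY1 c' (List.mem_flatMap.2 ⟨q, hq, hc'⟩)) c hc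
  have hY1len : (Y (ann1.map rr)).length ≤ C * (D + 1) := by
    refine le_trans ?_ (Nat.mul_le_mul_right (D + 1) hC)
    have hsub : ∀ p ∈ ann1, p ∈ ann := fun p hp => by rw [hann]; simp [hp]
    clear_value ann
    clear hann hY1 hY1a hC
    induction ann1 with
    | nil => simp
    | cons q l ih =>
      rw [List.map_cons, Y_cons, List.length_append, nn_cons, Nat.add_mul]
      have h1 := ih (fun p hp => hsub p (List.mem_cons_of_mem _ hp))
      have h2 := P5 q (hsub q List.mem_cons_self)
      split_ifs with h0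
      · rw [P1 q (hsub q List.mem_cons_self) h0]; simpa using h1
      · omega
  have hi : i ≤ D + 1 := by
    have := P5 π (by rw [hann]; simp)
    rw [hv', List.length_append, List.length_replicate] at this
    omega
  have hform : l' ++ Y (ann.map rr) ++ r' =
      List.replicate (l'.length + (Y (ann1.map rr)).length + i) a ++
        b :: (v' ++ Y (ann2.map rr) ++ r') := by
    rw [hann, List.map_append, List.map_cons, Y_append, Y_cons, hv']
    conv_lhs => rw [eq_replicate_of k2, eq_replicate_of hY1a]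
    simp only [List.append_assoc, List.cons_append]
    rw [← List.append_assoc, ← List.append_assoc, List.replicate_append_replicate,
      List.replicate_append_replicate]
  have hsub : ∀ p ∈ seg, p ∈ ann := by
    intro p hp; rw [hseg]; simp [hp]
  have hsega' : ∀ c ∈ Y (seg.map rr), c = a := by
    intro c hc
    obtain ⟨p, hp, hc⟩ := List.mem_flatMap.1 hc
    obtain ⟨q, hq, rfl⟩ := List.mem_map.1 hp
    exact P3 q (hsub q hq)
      (fun c' hc' => hsega c' (List.mem_flatMap.2 ⟨q, hq, hc'⟩)) c hc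
  have hrun := hL.run hlt hform (y := (Y (seg.map rr)).length) (by
    rw [← eq_replicate_of hsega', hseg, List.map_append, List.map_append, Y_append, Y_append]
    exact ⟨l' ++ Y (s1.map rr), Y (s2.map rr) ++ r', by simp [List.append_assoc]⟩)
  have hnn : nn seg ≤ nn (seg.map rr) := by
    clear hseg hsega hsega' hrun
    induction seg with
    | nil => simp
    | cons q l ih =>
      rw [List.map_cons, nn_cons, nn_cons]
      have h1 := ih (fun p hp => hsub p (List.mem_cons_of_mem _ hp))
      by_cases h0 : yl q = []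
      · simp only [h0, if_true]; omega
      · rw [if_neg h0, if_neg (P2 q (hsub q List.mem_cons_self) h0)]; omega
  have := nn_le_length (seg.map rr)
  omega

end Pool.Agent.Idx60
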