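import Pool.Agent.Idx60.Dick

/-!
Words that are least among their rotations: runs, and rigidity of factors in the first copy of `u u`.
-/

namespace Pool.Agent.Idx60

variable {T : Type}

/-- `z` is not lexicographically greater than any of its rotations -/
def Least (lt : T → T → Prop) (z : List T) : Prop :=
  ∀ p q : List T, z = p ++ q → ¬ List.Lex lt (q ++ p) z

theorem eq_replicate_of {a : T} {l : List T} (h : ∀ c ∈ l, c = a) : l = List.replicate l.length a :=
  List.eq_replicate_iff.2 ⟨rfl, h⟩

/-- comparison at the first difference -/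
theorem Least.nv {lt : T → T → Prop} {a b : T} (hab : lt a b) {z y u c z' u' : List T}
    (hz : Least lt z) (h1 : z = y ++ u) (h2 : z = c ++ b :: z') (h3 : u = c ++ a :: u') : False := by
  apply hz y u h1
  rw [h2, h3, List.append_assoc]
  exact List.Lex.append_left _ (List.Lex.rel hab) c

/-- the first run is the longest -/
theorem Least.run {lt : T → T → Prop} {a b : T} (hab : lt a b) {z z' : List T} {x y : ℕ}
    (hz : Least lt z) (h1 : z = List.replicate x a ++ b :: z')
    (h2 : List.replicate y a <:+: z) : y ≤ x := by
  by_contra hlt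
  push Not at hlt
  obtain ⟨s, t, h⟩ := h2
  obtain ⟨d, rfl⟩ : ∃ d, y = x + (d + 1) := ⟨y - x - 1, by omega⟩
  apply hz s (List.replicate (x + (d + 1)) a ++ t) (by rw [← h, List.append_assoc])
  rw [h1, List.replicate_add, List.append_assoc, List.append_assoc]
  apply List.Lex.append_left
  rw [List.replicate_succ]
  exact List.Lex.rel hab

/-- first occurrence of `b` -/
theorem exists_first {a b : T} {l : List T} (h : ∀ c ∈ l, c = a ∨ c = b) (hb : b ∈ l) :
    ∃ i l', l = List.replicate i a ++ b :: l' := by
  induction l with
  | nil => simp at hb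
  | cons c l ih =>
    by_cases hcb : c = b
    · exact ⟨0, l, by simp [hcb]⟩
    · have hca : c = a := by
        rcases h c List.mem_cons_self with h' | h'
        · exact h'
        · exact absurd h' hcb
      have hb' : b ∈ l := by
        rcases List.mem_cons.1 hb with h' | h'
        · exact absurd h'.symm hcb
        · exact h'
      obtain ⟨i, l', e⟩ := ih (fun c hc => h c (List.mem_cons_of_mem _ hc)) hb'
      exact ⟨i + 1, l', by rw [List.replicate_succ, List.cons_append, ← e, hca]⟩

theorem rigid_aux {lt : T → T → Prop} {a b : T} (hab : lt a b) (hne : a ≠ b) {u s v z t : List T}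
    (hu : ∀ c ∈ u, c = a ∨ c = b) (he : u.getLast? = some b)
    (h1 : u = s ++ v ++ z ++ t) (hz : ∀ c ∈ z, c = a) (hz0 : z ≠ [])
    (hL : Least lt (s ++ v ++ t ++ u)) : False := by
  have ht : b ∈ t := by
    rcases List.eq_nil_or_concat t with ht | ⟨t', c, ht⟩
    · exfalso
      rcases List.eq_nil_or_concat z with hz' | ⟨z', c, hz'⟩
      · exact hz0 hz'
      · rw [h1, ht, hz', List.append_nil, List.getLast?_append_of_ne_nil _ (by simp)] at he
        have : c = b := by simpa using he
        have h2 := hz c (by rw [hz']; simp)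
        exact hne (h2.symm.trans this)
    · rw [h1, ht, List.getLast?_append_of_ne_nil _ (by simp)] at he
      have : c = b := by simpa using he
      rw [ht, this]; simp
  obtain ⟨q, t', e⟩ := exists_first (a := a) (b := b) (l := t)
    (fun c hc => hu c (by rw [h1]; simp [hc])) ht
  obtain ⟨m, hm⟩ : ∃ m, z = List.replicate (m + 1) a := by
    rw [eq_replicate_of hz]
    exact ⟨z.length - 1, by
      have := List.length_pos_iff.2 hz0
      congr 1; omega⟩
  refine hL.nv hab (y := s ++ v ++ t) (u := u) (c := s ++ v ++ List.replicate q a)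
    (z' := t' ++ u) (u' := List.replicate m a ++ b :: t') rfl ?_ ?_
  · rw [e]; simp [List.append_assoc]
  · rw [h1, e, hm]
    have : List.replicate (m + 1) a ++ List.replicate q a =
        List.replicate q a ++ a :: List.replicate m a := by
      rw [← List.replicate_succ, List.replicate_append_replicate,
        List.replicate_append_replicate, Nat.add_comm]
    simp only [List.append_assoc]
    rw [← List.append_assoc (List.replicate (m + 1) a), this]
    simp [List.append_assoc]

theorem prefix_or_diverge : ∀ v v' : List T, (∃ z, v' = v ++ z) ∨ (∃ z, v = v' ++ z) ∨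
    ∃ c x y r r', v = c ++ x :: r ∧ v' = c ++ y :: r' ∧ x ≠ y
  | [], v' => Or.inl ⟨v', rfl⟩
  | x :: v, [] => Or.inr (Or.inl ⟨x :: v, rfl⟩)
  | x :: v, y :: v' => by
    by_cases hxy : x = y
    · subst hxy
      rcases prefix_or_diverge v v' with ⟨z, hz⟩ | ⟨z, hz⟩ | ⟨c, x', y', r, r', h1, h2, h3⟩
      · exact Or.inl ⟨z, by rw [hz]; rfl⟩
      · exact Or.inr (Or.inl ⟨z, by rw [hz]; rfl⟩)
      · exact Or.inr (Or.inr ⟨x :: c, x', y', r, r', by rw [h1]; rfl, by rw [h2]; rfl, h3⟩)
    · exact Or.inr (Or.inr ⟨[], x, y, v, v', rfl, rfl, hxy⟩)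

/-- rigidity of factors inside the first copy of `u u` -/
theorem rigid [DecidableEq T] {lt : T → T → Prop} {a b : T} (hab : lt a b) (hne : a ≠ b)
    {u s v t s' v' t' : List T}
    (hu : ∀ c ∈ u, c = a ∨ c = b) (he : u.getLast? = some b)
    (h1 : u ++ u = s ++ v ++ t) (h2 : u ++ u = s' ++ v' ++ t')
    (l1 : (s ++ v).length ≤ u.length) (l2 : (s' ++ v').length ≤ u.length)
    (hc : v.count b = v'.count b)
    (hL1 : Least lt (s ++ v' ++ t)) (hL2 : Least lt (s' ++ v ++ t')) : v = v' := by
  obtain ⟨t1, e1, e1'⟩ : ∃ t1, u = s ++ v ++ t1 ∧ t = t1 ++ u := by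
    rcases List.append_eq_append_iff.1 h1 with ⟨m, e, e'⟩ | ⟨m, e, e'⟩
    · -- s ++ v = u ++ m
      have : m = [] := by
        have := congrArg List.length e
        simp only [List.length_append] at this l1 l2
        apply List.length_eq_zero_iff.1; omega
      subst this
      exact ⟨[], by simpa using e.symm, by simpa using e'.symm⟩
    · exact ⟨m, e, e'⟩
  obtain ⟨t1', e2, e2'⟩ : ∃ t1, u = s' ++ v' ++ t1 ∧ t' = t1 ++ u := by
    rcases List.append_eq_append_iff.1 h2 with ⟨m, e, e'⟩ | ⟨m, e, e'⟩
    · have : m = [] := by
        have := congrArg List.length e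
        simp only [List.length_append] at this l1 l2
        apply List.length_eq_zero_iff.1; omega
      subst this
      exact ⟨[], by simpa using e.symm, by simpa using e'.symm⟩
    · exact ⟨m, e, e'⟩
  rcases prefix_or_diverge v v' with ⟨z, hz⟩ | ⟨z, hz⟩ | ⟨c, x, y, r, r', g1, g2, g3⟩
  · by_cases hz0 : z = []
    · rw [hz, hz0, List.append_nil]
    · exfalso
      have hzb : b ∉ z := by
        rw [hz, List.count_append] at hc
        exact List.count_eq_zero.1 (by omega)
      have hza : ∀ c ∈ z, c = a := by
        intro c hc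
        rcases hu c (by rw [e2, hz]; simp [hc]) with h | h
        · exact h
        · exact absurd (h ▸ hc) hzb
      refine rigid_aux hab hne (u := u) (s := s') (v := v) (z := z) (t := t1') hu he ?_ hza hz0 ?_
      · rw [e2, hz]; simp [List.append_assoc]
      · rw [e2'] at hL2; simpa [List.append_assoc] using hL2
  · by_cases hz0 : z = []
    · rw [hz, hz0, List.append_nil]
    · exfalso
      have hzb : b ∉ z := by
        rw [hz, List.count_append] at hc
        exact List.count_eq_zero.1 (by omega)
      have hza : ∀ c ∈ z, c = a := by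
        intro c hc
        rcases hu c (by rw [e1, hz]; simp [hc]) with h | h
        · exact h
        · exact absurd (h ▸ hc) hzb
      refine rigid_aux hab hne (u := u) (s := s) (v := v') (z := z) (t := t1) hu he ?_ hza hz0 ?_
      · rw [e1, hz]; simp [List.append_assoc]
      · rw [e1'] at hL1; simpa [List.append_assoc] using hL1
  · exfalso
    have hx := hu x (by rw [e1, g1]; simp)
    have hy := hu y (by rw [e2, g2]; simp)
    rcases hx with rfl | rfl
    · rcases hy with rfl | rfl
      · exact g3 rfl
      · refine hL1.nv hab (y := s ++ v' ++ t1) (u := u) (c := s ++ c) (z' := r' ++ t)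
          (u' := r ++ t1) ?_ ?_ ?_
        · rw [e1']; simp [List.append_assoc]
        · rw [g2]; simp [List.append_assoc]
        · rw [e1, g1]; simp [List.append_assoc]
    · rcases hy with rfl | rfl
      · refine hL2.nv hab (y := s' ++ v ++ t1') (u := u) (c := s' ++ c) (z' := r ++ t')
          (u' := r' ++ t1') ?_ ?_ ?_
        · rw [e2']; simp [List.append_assoc]
        · rw [g1]; simp [List.append_assoc]
        · rw [e2, g2]; simp [List.append_assoc]
      · exact g3 rfl

end Pool.Agent.Idx60
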